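import Pool.Agent.Helper50.CSB.Q0

/-!
# The pattern (3,2,1): definitions
-/

namespace H50R

open H45C Equiv MvPolynomial

variable {α : Type*} [DecidableEq α]

/-- the ribbon with three blocks -/
noncomputable def R3 (A B C : Finset α) (a b c : ℤ) (z : Wd α) : Wd α :=
  Hop A a (Hop B b (Hop C c z)) - Hop A a (Hop B (b + c) z) - Hop A (a + b) (Hop C c z) +
    Hop A (a + b + c) z

/-- `ρ(k,2) C'_1 - ρ(k,3)` -/
noncomputable def tauk (X A B C : Finset α) (q : α) (k : ℤ) (z : Wd α) : Wd α :=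
  rho X A B q k 2 (Hop (C.erase q) 1 z) - rho X A B q k 3 z

/-- `A_k B'_2 B_1 - A_k B'_3 - A_{k+1} B'_2 + A'_{k+3} + ∑ A_{k+2} σ_{qℓ}` -/
noncomputable def nuk (X A B : Finset α) (q : α) (k : ℤ) (z : Wd α) : Wd α :=
  Hop A k (Hop (B.erase q) 2 (Hop B 1 z)) - Hop A k (Hop (B.erase q) 3 z) -
    Hop A (k + 1) (Hop (B.erase q) 2 z) + (Hop (A.erase q) (k + 3) z +
    ∑ l ∈ (B \ A) ∩ X, Hop A (k + 2) (rl (swap q l) z))

/-- `A_a B_1 C_1 - A_{a+1} C_1 - A_{a+1} B_1 + A_{a+2}`, `B` and `C` not nested -/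
noncomputable def kapa (A B C : Finset α) (a : ℤ) (z : Wd α) : Wd α :=
  Hop A a (Hop B 1 (Hop C 1 z)) - Hop A (a + 1) (Hop C 1 z) - Hop A (a + 1) (Hop B 1 z) +
    Hop A (a + 2) z

/-- `D(a,2) C_1 - D(a,3)` -/
noncomputable def Fk (A B C : Finset α) (a : ℤ) (z : Wd α) : Wd α :=
  Dd A B a 2 (Hop C 1 z) - Dd A B a 3 z

end H50R
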