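import Pool.Agent.Helper50.CSB.Q8

/-!
# The parity of the coefficients
-/

namespace H50R

open H45C Equiv MvPolynomial

variable {m : ℕ}

theorem par_xb (i : Fin (m + 1)) (x y : WG m) (h : xb i x y ≠ 0) :
    Perm.sign y = -Perm.sign x := by
  unfold xb at h
  rw [Finsupp.finsetSum_apply] at h
  obtain ⟨j, -, hj⟩ := Finset.exists_ne_zero_of_sum_ne_zero h
  split_ifs at hj with h1 h2
  · have hy : swap i j * x = y := by
      by_contra hne
      exact hj (by simp [bas, hne])
    rw [← hy, Perm.sign_mul, Perm.sign_swap h1.1.ne, neg_one_mul]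
  · have hy : swap i j * x = y := by
      by_contra hne
      exact hj (by simp [bas, hne])
    rw [← hy, Perm.sign_mul, Perm.sign_swap h2.1.ne', neg_one_mul]
  · exact absurd rfl hj

theorem par_Xop (i : Fin (m + 1)) (z : VV m) (e : ℤˣ) (hz : ∀ y, z y ≠ 0 → Perm.sign y = e)
    (y : WG m) (h : Xop i z y ≠ 0) : Perm.sign y = -e := by
  have e1 : Xop i z = z.sum fun x a => a • xb i x := rfl
  rw [e1, Finsupp.sum, Finsupp.finsetSum_apply] at h
  obtain ⟨x, hx, hne⟩ := Finset.exists_ne_zero_of_sum_ne_zero h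
  rw [Finsupp.smul_apply] at hne
  rw [par_xb i x y (right_ne_zero_of_smul hne), hz x (Finsupp.mem_support_iff.mp hx)]

theorem par_mono (s : Fin (m + 1) →₀ ℕ) (a : ℤ) : ∀ (z : VV m) (e : ℤˣ),
    (∀ y, z y ≠ 0 → Perm.sign y = e) → ∀ y, act m (monomial s a) z y ≠ 0 →
      Perm.sign y = e * (-1) ^ (monomial s a : Pol m).totalDegree := by
  refine induction_on_monomial (motive := fun p : Pol m => ∀ (z : VV m) (e : ℤˣ),
    (∀ y, z y ≠ 0 → Perm.sign y = e) → ∀ y, act m p z y ≠ 0 →
      Perm.sign y = e * (-1) ^ p.totalDegree) ?_ ?_ s a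
  · intro a z e hz y h
    rw [act_C_apply, Finsupp.smul_apply] at h
    rw [totalDegree_C, pow_zero, mul_one]
    exact hz y (right_ne_zero_of_smul h)
  · intro p n ih z e hz y h
    rw [act_mul_apply, act_X_apply] at h
    have hp : p ≠ 0 := by
      rintro rfl
      simp at h
    rw [totalDegree_mul_of_isDomain hp (X_ne_zero n), totalDegree_X]
    have h1 := ih (Xop n z) (-e) (fun y' hy' => par_Xop n z e hz y' hy') y h
    rw [h1, pow_succ, neg_mul, mul_neg_one, mul_neg]

/-- a homogeneous polynomial of degree `d` changes the sign of permutations by `(-1)^d` -/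
theorem act_parity (P : Pol m) (d : ℕ) (hP : P.IsHomogeneous d) (x y : WG m)
    (h : act m P (bas x) y ≠ 0) : Perm.sign y = Perm.sign x * (-1) ^ d := by
  rw [P.as_sum, map_sum, LinearMap.sum_apply, Finsupp.finsetSum_apply] at h
  obtain ⟨s, hs, hne⟩ := Finset.exists_ne_zero_of_sum_ne_zero h
  have hc : coeff s P ≠ 0 := mem_support_iff.mp hs
  have h1 := par_mono s (coeff s P) (bas x) (Perm.sign x) (fun y' hy' => by
    have : x = y' := by
      by_contra hxy
      exact hy' (by simp [bas, hxy])
    rw [this]) y hne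
  have h2 : (monomial s (coeff s P) : Pol m).IsHomogeneous d := by
    intro s' hs'
    rw [coeff_monomial] at hs'
    split_ifs at hs' with h3
    · rw [← h3]
      exact hP hc
    · exact absurd rfl hs'
  rwa [h2.totalDegree (by rwa [Ne, monomial_eq_zero])] at h1

theorem sign_eq_inv (w : WG m) : Perm.sign w = (-1) ^ inv w := by
  obtain ⟨l, rfl, hl⟩ := exists_word w
  rw [← hl]
  clear hl
  induction l with
  | nil => simp [wp]
  | cons k l ih =>
    have : wp (k :: l) = wp l * sg k := by simp [wp]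
    rw [this, Perm.sign_mul, ih, List.length_cons, pow_succ]
    congr 1
    exact Perm.sign_swap (castSucc_ne_succ k)

/-- a nonzero coefficient has `l(w)` congruent to `l(u) + l(v)` modulo `2` -/
theorem co_parity (v : WG m) (P : Pol m) (hP : IsSchub v P) (u w : WG m) (h : co P u w ≠ 0) :
    Even (inv u + inv v + inv w) := by
  rw [co_eq v P _ hP (isSchub_hc v P hP)] at h
  have h1 := act_parity _ (inv v) (homogeneousComponent_isHomogeneous (inv v) P) _ _ h
  rw [Perm.sign_mul, Perm.sign_mul, Perm.sign_inv, Perm.sign_inv, mul_right_comm] at h1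
  have h2 := mul_right_cancel h1
  rw [sign_eq_inv, sign_eq_inv, ← pow_add] at h2
  by_contra hne
  rw [Nat.not_even_iff_odd] at hne
  have h3 : ((-1 : ℤˣ)) ^ (inv u + inv v + inv w) = -1 := hne.neg_one_pow
  rw [pow_add, ← h2, ← pow_add, ← two_mul, pow_mul] at h3
  simp at h3

/-- the coefficients with `l(w) ≤ l(u) + 7`, except for the Schubert structure constants -/
theorem co_seven (v : WG m) (P : Pol m) (hP : IsSchub v P) (u w : WG m)
    (h1 : inv w ≤ inv u + 7) (h2 : inv w = inv u + inv v → inv v ≤ 5) : 0 ≤ co P u w := by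
  by_cases h0 : co P u w = 0
  · exact h0.ge
  · have h3 := co_degree v P hP u w h0
    obtain ⟨k, hk⟩ := co_parity v P hP u w h0
    exact co_nonneg v P hP (EE_five v (by omega)) u w

/-- the classes of `v` with a positive representative -/
theorem main_seven (m : ℕ) (S : WG m → Prop) (hS : ∀ v, S v → EE v) :
    ∃ C : WG m → Coh m, IsCSM C ∧ (∀ C', IsCSM C' → C' = C) ∧
      LinearIndependent ℤ C ∧ Submodule.span ℤ (Set.range C) = ⊤ ∧
      ∃ Y : WG m → Coh m, (∀ v : WG m, ∃ P : Pol m, IsSchub v P) ∧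
        (∀ (v : WG m) (P : Pol m), IsSchub v P → Y v = cl P) ∧
        ∃ a : WG m → WG m → WG m → ℤ,
          (∀ u v : WG m, Y v * C u = ∑ w, (a u v w : Coh m) * C w) ∧
          (∀ u v w : WG m, S v → 0 ≤ a u v w) ∧
          ∀ u v w : WG m, inv w ≤ inv u + 7 → (inv w = inv u + inv v → inv v ≤ 5) →
            0 ≤ a u v w := by
  obtain ⟨C, hC⟩ := exists_isCSM m
  have hP : ∀ v : WG m, IsSchub v (exists_isSchub v).choose := fun v =>
    (exists_isSchub v).choose_spec
  refine ⟨C, hC, fun C' hC' => isCSM_unique C' C hC' hC, linearIndependent_of_isCSM C hC,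
    span_of_isCSM C hC, fun v => cl (exists_isSchub v).choose, exists_isSchub, ?_,
    fun u v w => co (exists_isSchub v).choose u w, ?_, ?_, ?_⟩
  · intro v P hPv
    exact cl_eq_of_isSchub v _ P (hP v) hPv
  · intro u v
    exact co_sum _ C hC u
  · intro u v w h
    exact co_nonneg v _ (hP v) (hS v h) u w
  · intro u v w h1 h2
    exact co_seven v _ (hP v) u w h1 h2

end H50R
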