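import Pool.Agent.Helper50.CSB.Chain
import Pool.Agent.Helper13.CSB.P3a
import Pool.Agent.Helper10.CSB.P3b

/-!
# CSM positivity for products of distinct simple reflections
-/

namespace H50R

open H45C Equiv MvPolynomial

variable {m : ℕ}

/-- the polynomial of `s_i s_{i+1} s_i` acts nonnegatively -/
theorem PP_iji (i : ℕ) : PP (hz m (i + 1) 2 * hz m (i + 2) 1 - hz m (i + 1) 3) := by
  intro x
  apply NN_of_Om
  have h : Om m (act m (hz m (i + 1) 2 * hz m (i + 2) 1 - hz m (i + 1) 3) (bas x)) =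
      rib [((Sj m (i + 1), (2 : ℤ)) : Bl (Fin (m + 1))), (Sj m (i + 2), 1)] (wd (om x)) := by
    rw [map_sub, LinearMap.sub_apply, map_sub, act_mul_apply, Om_act_hz,
      Om_act_hz, Om_act_hz, rib_cons, rib_single, rib_single, Om_bas]
    rfl
  rw [h]
  refine rib_pos (X := Finset.univ)
    (L := [((Sj m (i + 1), (2 : ℤ)) : Bl (Fin (m + 1))), (Sj m (i + 2), 1)])
    ⟨?_, ?_, ?_, trivial⟩ ?_ (wd_mem _ (om_nodup x) (om_toFinset x)) (WN.wd _)
  · exact Sj_mono (by omega)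
  · show (1 : ℤ) ≤ 2
    norm_num
  · have h := card_Sj_sdiff (i + 1) (i + 2) (Finset.univ : Finset (Fin (m + 1)))
    show (((Sj m (i + 2) \ Sj m (i + 1)) ∩ Finset.univ).card : ℤ) ≤ 2 + ((0 : ℕ) : ℤ)
    push_cast
    omega
  · show (1 : ℤ) ≤ 1
    exact le_rfl

/-- every product of distinct simple reflections, and every element of length at most `3`, has a
representing polynomial which acts nonnegatively -/
theorem exists_PP (v : WG m) (hv : (∃ l : List (Fin m), l.Nodup ∧ wp l = v) ∨ inv v ≤ 3) :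
    ∃ Q : Pol m, IsSchub v Q ∧ PP Q := by
  have h1 : ∀ l : List (Fin m), l.Nodup → ∃ Q : Pol m, IsSchub (wp l) Q ∧ PP Q := by
    intro l hl
    obtain ⟨B, hB, hv⟩ := exists_blocks l hl
    refine ⟨pb m B, ?_, PP_pb B hB⟩
    rw [← hv]
    exact isSchub_pb B hB
  have h2 : (∃ l : List (Fin m), l.Nodup ∧ wp l = v) → ∃ Q : Pol m, IsSchub v Q ∧ PP Q := by
    rintro ⟨l, hl, rfl⟩
    exact h1 l hl
  rcases hv with hv | hv
  · exact h2 hv
  · rcases len_three v hv with hv | ⟨i, hi, rfl⟩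
    · exact h2 hv
    · exact ⟨_, isSchub_iji i hi, PP_iji i⟩

/-- **Main theorem.** -/
theorem main (m : ℕ) :
    ∃ C : WG m → Coh m, IsCSM C ∧ (∀ C', IsCSM C' → C' = C) ∧
      LinearIndependent ℤ C ∧ Submodule.span ℤ (Set.range C) = ⊤ ∧
      ∃ Y : WG m → Coh m, (∀ v : WG m, ∃ P : Pol m, IsSchub v P) ∧
        (∀ (v : WG m) (P : Pol m), IsSchub v P → Y v = cl P) ∧
        ∀ v : WG m, ((∃ l : List (Fin m), l.Nodup ∧ wp l = v) ∨ inv v ≤ 3) →
          ∀ u : WG m, ∃ a : WG m → ℕ, Y v * C u = ∑ w, (a w : Coh m) * C w := by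
  obtain ⟨C, hC⟩ := exists_isCSM m
  refine ⟨C, hC, fun C' hC' => isCSM_unique C' C hC' hC, linearIndependent_of_isCSM C hC,
    span_of_isCSM C hC, fun v => cl (exists_isSchub v).choose, exists_isSchub, ?_, ?_⟩
  · intro v P hP
    exact cl_eq_of_isSchub v _ P (exists_isSchub v).choose_spec hP
  · intro v hv u
    obtain ⟨Q, hQ, hPP⟩ := exists_PP v hv
    exact csm_of_PP v Q hQ hPP _ (exists_isSchub v).choose_spec C hC u

end H50R
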