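import Pool.Agent.Helper50.CSB.Rib4
import Pool.Agent.Helper13.CSB.P4

/-!
# Chains of adjacent blocks act nonnegatively
-/

namespace H50R

open H45C Equiv MvPolynomial

variable {m : ℕ}

/-- the word block of a block -/
def wb (m : ℕ) (b : ℕ × ℕ) : Bl (Fin (m + 1)) := (Sj m (b.1 + 1), (b.2 : ℤ))

theorem Sj_mono {i j : ℕ} (h : i ≤ j) : Sj m i ⊆ Sj m j := by
  intro x hx
  simp only [Sj, Finset.mem_filter, Finset.mem_univ, true_and] at hx ⊢
  omega

theorem card_Sj_sdiff (i j : ℕ) (X : Finset (Fin (m + 1))) :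
    ((Sj m j \ Sj m i) ∩ X).card ≤ j - i := by
  have h1 : ((Sj m j \ Sj m i) ∩ X).card ≤ (Sj m j \ Sj m i).card :=
    Finset.card_le_card Finset.inter_subset_left
  have h2 : (Sj m j \ Sj m i).card ≤ (Finset.Ico i j).card := by
    refine Finset.card_le_card_of_injOn (fun x => (x : ℕ)) ?_ ?_
    · intro x hx
      simp only [Sj, Finset.coe_sdiff, Set.mem_diff, Finset.mem_coe, Finset.mem_filter,
        Finset.mem_univ, true_and, Finset.coe_Ico, Set.mem_Ico] at hx ⊢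
      omega
    · intro x _ y _ hxy
      exact Fin.ext hxy
  rw [Nat.card_Ico] at h2
  exact h1.trans h2

theorem wf_chain (X : Finset (Fin (m + 1))) (L : List (ℕ × ℕ)) : ∀ (b : ℕ × ℕ), Adj (b :: L) →
    Good m (b :: L) → WF X ((b :: L).map (wb m)) ∧ lpos ((b :: L).map (wb m)) ∧
      hd (nrm ((b :: L).map (wb m))) = Sj m (b.1 + ld ((b :: L).map (wb m)) + 1) := by
  induction L with
  | nil =>
    intro b _ hG
    refine ⟨trivial, ?_, rfl⟩
    show (1 : ℤ) ≤ (b.2 : ℤ)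
    exact_mod_cast hG.1
  | cons c L ih =>
    intro b hA hG
    obtain ⟨hA1, hA2⟩ := hA
    obtain ⟨hG1, hG2, hG3⟩ := hG
    obtain ⟨i1, i2, i3⟩ := ih c hA2 hG3
    simp only [List.map_cons] at i1 i2 i3 ⊢
    have hb2 : ((wb m b).2 = 1) ↔ b.2 = 1 := by
      show ((b.2 : ℤ) = 1) ↔ b.2 = 1
      omega
    refine ⟨⟨?_, ?_, ?_, i1⟩, i2, ?_⟩
    · rw [i3]
      show Sj m (b.1 + 1) ⊆ _
      exact Sj_mono (by omega)
    · show (1 : ℤ) ≤ (b.2 : ℤ)
      exact_mod_cast hG1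
    · rw [i3]
      have h := card_Sj_sdiff (b.1 + 1) (c.1 + ld (wb m c :: L.map (wb m)) + 1) X
      show (((Sj m (c.1 + ld (wb m c :: L.map (wb m)) + 1) \ Sj m (b.1 + 1)) ∩ X).card : ℤ) ≤
        (b.2 : ℤ) + ld (wb m c :: L.map (wb m))
      omega
    · rw [nrm_cons, ld_cons]
      show (if (wb m b).2 = 1 then hd (nrm (wb m c :: L.map (wb m))) else (wb m b).1) = _
      by_cases h : b.2 = 1
      · rw [if_pos (hb2.2 h), if_pos (hb2.2 h), i3, hA1, h]
        congr 1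
        ring
      · rw [if_neg (fun h' => h (hb2.1 h')), if_neg (fun h' => h (hb2.1 h'))]
        rfl

/-- chains act nonnegatively -/
theorem PP_chain (L : List (ℕ × ℕ)) (hne : L ≠ []) (hA : Adj L) (hG : Good m L) :
    PP (pb m L) := by
  intro x
  apply NN_of_Om
  rw [Om_act_pb L hA, Om_bas]
  cases L with
  | nil => exact absurd rfl hne
  | cons b L =>
    obtain ⟨h1, h2, -⟩ := wf_chain (m := m) Finset.univ L b hA hG
    exact rib_pos h1 h2 (wd_mem _ (om_nodup x) (om_toFinset x)) (WN.wd _)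

theorem PP_pb (B : List (ℕ × ℕ)) (hB : Good m B) : PP (pb m B) :=
  PP_pb_of_adj PP_chain B hB

end H50R
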