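import Pool.Agent.Helper45.CSM.Basis

/-!
# Ribbons of sweeps: definitions

A block is a set of letters with a number of jumps; `rib` is the alternating sum over all
mergings of neighbouring blocks (the Jacobi-Trudi determinant of a ribbon); `pb` is the
polynomial of a list of blocks of consecutive reflections, `vb` the product of the rows.
-/

namespace H50R

open H45C Equiv MvPolynomial

variable {α : Type*} [DecidableEq α]

/-- a set of letters and a number of jumps -/
abbrev Bl (α : Type*) := Finset α × ℤ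

/-- the ribbon operator -/
noncomputable def rib : List (Bl α) → Module.End ℤ (Wd α)
  | [] => 1
  | [b] => Hop b.1 b.2
  | b :: c :: L => Hop b.1 b.2 * rib (c :: L) - rib ((b.1, b.2 + c.2) :: L)
termination_by L => L.length

theorem rib_nil : rib ([] : List (Bl α)) = 1 := by rw [rib]

theorem rib_single (b : Bl α) : rib [b] = Hop b.1 b.2 := by rw [rib]

theorem rib_cons (b c : Bl α) (L : List (Bl α)) :
    rib (b :: c :: L) = Hop b.1 b.2 * rib (c :: L) - rib ((b.1, b.2 + c.2) :: L) := by
  rw [rib]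

variable {m : ℕ}

/-- the polynomial of a list of blocks `(i, a)` (the reflections `s_i, ..., s_{i+a-1}`) -/
noncomputable def pb (m : ℕ) : List (ℕ × ℕ) → Pol m
  | [] => 1
  | [b] => hz m (b.1 + 1) b.2
  | b :: c :: L => hz m (b.1 + 1) b.2 * pb m (c :: L) -
      if c.1 = b.1 + b.2 then pb m ((b.1, b.2 + c.2) :: L) else 0
termination_by L => L.length

theorem pb_nil : pb m [] = 1 := by rw [pb]

theorem pb_single (b : ℕ × ℕ) : pb m [b] = hz m (b.1 + 1) b.2 := by rw [pb]

theorem pb_cons (b c : ℕ × ℕ) (L : List (ℕ × ℕ)) :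
    pb m (b :: c :: L) = hz m (b.1 + 1) b.2 * pb m (c :: L) -
      if c.1 = b.1 + b.2 then pb m ((b.1, b.2 + c.2) :: L) else 0 := by
  rw [pb]

/-- blocks of positive length, disjoint and increasing, with reflections `< m` -/
def Good (m : ℕ) : List (ℕ × ℕ) → Prop
  | [] => True
  | [b] => 1 ≤ b.2 ∧ b.1 + b.2 ≤ m
  | b :: c :: L => 1 ≤ b.2 ∧ b.1 + b.2 ≤ c.1 ∧ Good m (c :: L)

/-- `s_i` for a natural number `i` (the identity for `i ≥ m`) -/
def sn (m : ℕ) (i : ℕ) : WG m := if h : i < m then sg ⟨i, h⟩ else 1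

/-- the row `s_{i+a-1} ⋯ s_{i+1} s_i` -/
def row (m : ℕ) (i : ℕ) : ℕ → WG m
  | 0 => 1
  | a + 1 => row m (i + 1) a * sn m i

/-- the product of the rows -/
def vb (m : ℕ) : List (ℕ × ℕ) → WG m
  | [] => 1
  | b :: L => row m b.1 b.2 * vb m L

end H50R
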