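import Pool.Agent.Helper50.CSB.Q0
import Pool.Agent.Helper47.CSB.Q4

/-!
# Positivity of `r_a C_1 - r_{a+1}`
-/

namespace H50R

open H45C Equiv

variable {α : Type*} [DecidableEq α]

section nested

variable {X : Finset α} {h E : α} {A B C : Finset α}

theorem pn2_ne (hh : h ∉ X) (hE : E ∈ X) (hAB : A ⊆ B) (a b : ℤ) {z : Wd α} (hz : z ∈ WS X) :
    pr E (Hop A a (Hop B b (cns h z))) =
      (if h ∈ A ∧ E ∉ A then Hop A (a - 1) (rl (swap E h) (Hop B b z)) else 0) +
      (if h ∈ B ∧ E ∉ B then Hop A a (Hop B (b - 1) (rl (swap E h) z)) else 0) := by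
  rw [pr_two_ne hh hE A B a b hz]
  have e : (X ∩ A) \ B = ∅ := by
    rw [Finset.sdiff_eq_empty_iff_subset]
    exact Finset.inter_subset_right.trans hAB
  rw [e, Finset.sum_empty, ite_self, add_zero]

theorem pn2_self (hh : h ∉ X) (hAB : A ⊆ B) (a b : ℤ) {z : Wd α} (hz : z ∈ WS X) :
    pr h (Hop A a (Hop B b (cns h z))) = Hop A a (Hop B b z) := by
  rw [pr_two_self hh A B a b hz]
  have e : (X ∩ A) \ B = ∅ := by
    rw [Finset.sdiff_eq_empty_iff_subset]
    exact Finset.inter_subset_right.trans hAB
  rw [e, Finset.sum_empty, ite_self, add_zero]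

theorem pn3_ne (hh : h ∉ X) (hE : E ∈ X) (hAB : A ⊆ B) (hBC : B ⊆ C) (a b c : ℤ) {z : Wd α}
    (hz : z ∈ WS X) :
    pr E (Hop A a (Hop B b (Hop C c (cns h z)))) =
      (if h ∈ A ∧ E ∉ A then Hop A (a - 1) (rl (swap E h) (Hop B b (Hop C c z))) else 0) +
      Hop A a ((if h ∈ B ∧ E ∉ B then Hop B (b - 1) (rl (swap E h) (Hop C c z)) else 0) +
        (if h ∈ C ∧ E ∉ C then Hop B b (Hop C (c - 1) (rl (swap E h) z)) else 0)) := by
  have hy : Hop B b (Hop C c (cns h z)) ∈ WS (insert h X) := Hop_mem _ _ (Hop_mem _ _ (cns_mem hh hz))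
  rw [pr_Hop hy (Finset.mem_insert_of_mem hE) A a, pn2_ne hh hE hBC b c hz, add_comm]
  congr 1
  by_cases hEA : E ∈ A
  · rw [if_pos hEA, if_neg fun h' => h'.2 hEA]
  · rw [if_neg hEA]
    by_cases hA : h ∈ A
    · rw [if_pos ⟨hA, hEA⟩]
      rw [Finset.sum_eq_single h]
      · rw [pn2_self hh hBC b c hz]
      · intro G hG hGh
        rw [Finset.mem_inter, Finset.mem_insert] at hG
        have hGX : G ∈ X := hG.1.resolve_left hGh
        rw [pn2_ne hh hGX hBC b c hz, if_neg fun h' => h'.2 (hAB hG.2),
          if_neg fun h' => h'.2 (hBC (hAB hG.2)), add_zero, map_zero, map_zero]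
      · intro h'
        exact absurd (Finset.mem_inter.2 ⟨Finset.mem_insert_self _ _, hA⟩) h'
    · rw [if_neg fun h' => hA h'.1]
      refine Finset.sum_eq_zero fun G hG => ?_
      rw [Finset.mem_inter, Finset.mem_insert] at hG
      have hGh : G ≠ h := fun h' => hA (h' ▸ hG.2)
      have hGX : G ∈ X := hG.1.resolve_left hGh
      rw [pn2_ne hh hGX hBC b c hz, if_neg fun h' => h'.2 (hAB hG.2),
        if_neg fun h' => h'.2 (hBC (hAB hG.2)), add_zero, map_zero, map_zero]

theorem pn3_self (hh : h ∉ X) (hAB : A ⊆ B) (hBC : B ⊆ C) (a b c : ℤ) {z : Wd α}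
    (hz : z ∈ WS X) :
    pr h (Hop A a (Hop B b (Hop C c (cns h z)))) = Hop A a (Hop B b (Hop C c z)) := by
  have hy : Hop B b (Hop C c (cns h z)) ∈ WS (insert h X) := Hop_mem _ _ (Hop_mem _ _ (cns_mem hh hz))
  rw [pr_Hop hy (Finset.mem_insert_self _ _) A a, pn2_self hh hBC b c hz]
  have h0 : (if h ∈ A then 0 else ∑ G ∈ insert h X ∩ A,
      Hop A (a - 1) (rl (swap h G) (pr G (Hop B b (Hop C c (cns h z))))) : Wd α) = 0 := by
    split_ifs with hA
    · rfl
    · refine Finset.sum_eq_zero fun G hG => ?_
      rw [Finset.mem_inter, Finset.mem_insert] at hG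
      have hGh : G ≠ h := fun h' => hA (h' ▸ hG.2)
      have hGX : G ∈ X := hG.1.resolve_left hGh
      rw [pn2_ne hh hGX hBC b c hz, if_neg fun h' => h'.2 (hAB hG.2),
        if_neg fun h' => h'.2 (hBC (hAB hG.2)), add_zero, map_zero, map_zero]
  rw [h0, add_zero]

/-- the exchange of two letters of the set -/
theorem cj_both (hh : h ∉ X) (hE : E ∈ X) {S : Finset α} (h1 : h ∈ S) (h2 : E ∈ S) (k : ℤ)
    {z : Wd α} (hz : z ∈ WS X) : rl (swap E h) (Hop S k z) = Hop S k (rl (swap E h) z) := by
  refine rl_gen _ S S ?_ k hz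
  intro x hx
  have hxh : x ≠ h := fun h' => hh (h' ▸ hx)
  rcases eq_or_ne x E with rfl | hxE
  · rw [swap_apply_left]
    exact ⟨fun _ => h1, fun _ => h2⟩
  · rw [swap_apply_of_ne_of_ne hxE hxh]

/-- the exchange of a letter of the set with a letter outside -/
theorem cj_out (hh : h ∉ X) (hE : E ∈ X) {S : Finset α} (h2 : E ∉ S) (k : ℤ)
    {z : Wd α} (hz : z ∈ WS X) :
    rl (swap E h) (Hop S k z) = Hop (S.erase h) k (rl (swap E h) z) := by
  refine rl_gen _ S (S.erase h) ?_ k hz
  intro x hx
  have hxh : x ≠ h := fun h' => hh (h' ▸ hx)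
  rcases eq_or_ne x E with rfl | hxE
  · rw [swap_apply_left]
    exact ⟨fun h' => absurd h' h2, fun h' => absurd h' (Finset.notMem_erase _ _)⟩
  · rw [swap_apply_of_ne_of_ne hxE hxh, Finset.mem_erase]
    exact ⟨fun h' => ⟨hxh, h'⟩, fun h' => h'.2⟩

end nested

theorem gap_le {X Y A B : Finset α} (h : Y ⊆ X) :
    (((B \ A) ∩ Y).card : ℤ) ≤ ((B \ A) ∩ X).card := by
  exact_mod_cast Finset.card_le_card (Finset.inter_subset_inter_left h)

theorem gap_lt {X A B : Finset α} {h E : α} (hE : E ∈ X) (hEB : E ∈ B) (hEA : E ∉ A)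
    (hhA : h ∈ A) : (((B \ A) ∩ (insert h X).erase E).card : ℤ) + 1 ≤
      ((B \ A) ∩ insert h X).card := by
  have h1 : (B \ A) ∩ (insert h X).erase E = ((B \ A) ∩ insert h X).erase E := by
    rw [Finset.inter_erase]
  have h2 : E ∈ (B \ A) ∩ insert h X :=
    Finset.mem_inter.2 ⟨Finset.mem_sdiff.2 ⟨hEB, hEA⟩, Finset.mem_insert_of_mem hE⟩
  rw [h1]
  exact_mod_cast (Finset.card_erase_add_one h2).le

theorem Lam_mem {X : Finset α} (A B C : Finset α) (a : ℤ) {z : Wd α} (hz : z ∈ WS X) :
    Lam A B C a z ∈ WS X := by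
  unfold Lam
  exact Submodule.sub_mem _ (Submodule.sub_mem _ (Hop_mem _ _ (Hop_mem _ _ (Hop_mem _ _ hz)))
    (Hop_mem _ _ (Hop_mem _ _ hz))) (Submodule.sub_mem _ (Hop_mem _ _ (Hop_mem _ _ hz))
    (Hop_mem _ _ hz))

/-- the operator `Lam` -/
noncomputable def LamE (A B C : Finset α) (a : ℤ) : Module.End ℤ (Wd α) :=
  Hop A a * (Hop B 1 * Hop C 1) - Hop A (a + 1) * Hop C 1 -
    (Hop A (a + 1) * Hop B 1 - Hop A (a + 2))

theorem LamE_apply (A B C : Finset α) (a : ℤ) (z : Wd α) : LamE A B C a z = Lam A B C a z := rfl

theorem Lam_pos_aux (n : ℕ) : ∀ X : Finset α, X.card = n → ∀ (A B C : Finset α) (a : ℤ),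
    A ⊆ B → B ⊆ C → (((B \ A) ∩ X).card : ℤ) + 1 ≤ a →
    (((C \ A) ∩ X).card : ℤ) ≤ a → ∀ z : Wd α, z ∈ WS X → WN z → WN (Lam A B C a z) := by
  induction n with
  | zero =>
    intro X hX A B C a _ _ ha' _ z hz hn
    have ha : 1 ≤ a := by omega
    refine WN_of_words (LamE A B C a) ?_ hz hn
    intro u hu huX
    rw [Finset.card_eq_zero] at hX
    have hu' : u = [] := by
      rw [hX, List.toFinset_eq_empty_iff] at huX
      exact huX
    subst hu'
    rw [LamE_apply]
    have e1 : Hop C 1 (wd ([] : List α)) = 0 := by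
      rw [Hop_wd, hop_nil, if_neg (by norm_num)]
    have e2 : Hop B 1 (wd ([] : List α)) = 0 := by
      rw [Hop_wd, hop_nil, if_neg (by norm_num)]
    have e3 : Hop A (a + 2) (wd ([] : List α)) = 0 := by
      rw [Hop_wd, hop_nil, if_neg (by omega)]
    unfold Lam
    rw [e1, e2, e3]
    simp only [map_zero, sub_zero]
    exact WN.zero
  | succ n ih =>
    intro X hX A B C a hAB hBC h1 hC z hz hn
    have ha : 1 ≤ a := by omega
    refine WN_of_words (LamE A B C a) ?_ hz hn
    intro u hu huX
    rw [LamE_apply]
    clear hz hn z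
    match u, hu, huX with
    | [], _, huX =>
      rw [List.toFinset_nil] at huX
      rw [← huX] at hX
      simp at hX
    | h :: u, hu, huX =>
      obtain ⟨hq, hu'⟩ := List.nodup_cons.1 hu
      obtain ⟨Y, hY⟩ : ∃ Y, Y = u.toFinset := ⟨_, rfl⟩
      have hh : h ∉ Y := fun h' => hq (List.mem_toFinset.1 (hY ▸ h'))
      have hXi : X = insert h Y := by
        rw [← huX, List.toFinset_cons, hY]
      have hz : wd u ∈ WS Y := wd_mem u hu' hY.symm
      have hn : WN (wd u) := WN.wd u
      rw [← cns_wd]
      generalize wd u = z at hz hn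
      clear hu hq hu' huX hY u
      subst hXi
      have hYc : Y.card = n := by
        rw [Finset.card_insert_of_notMem hh] at hX
        omega
      have hzX : Lam A B C a (cns h z) ∈ WS (insert h Y) := Lam_mem A B C a (cns_mem hh hz)
      refine WN_of_pr ⟨h, Finset.mem_insert_self _ _⟩ hzX ?_
      have hsub : Y ⊆ insert h Y := Finset.subset_insert _ _
      intro E hE
      rcases Finset.mem_insert.1 hE with rfl | hE
      · -- the same letter
        have e : pr E (Lam A B C a (cns E z)) = Lam A B C a z := by
          unfold Lam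
          rw [map_sub, map_sub, map_sub, pn3_self hh hAB hBC a 1 1 hz,
            pn2_self hh (hAB.trans hBC) (a + 1) 1 hz, pn2_self hh hAB (a + 1) 1 hz,
            pr_Hop_self hh A (a + 2) hz]
        rw [e]
        have g1 := gap_le (A := A) (B := B) hsub
        have g2 := gap_le (A := A) (B := C) hsub
        exact ih Y hYc A B C a hAB hBC (by omega) (g2.trans hC) z hz hn
      · -- another letter
        have hEh : E ≠ h := fun h' => hh (h' ▸ hE)
        have hzE : rl (swap E h) z ∈ WS ((insert h Y).erase E) := swap_mem hh hE hz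
        have hnE : WN (rl (swap E h) z) := WN_rl _ hn
        have hZc : ((insert h Y).erase E).card = n := by
          rw [Finset.card_erase_of_mem (Finset.mem_insert_of_mem hE), hX]
          rfl
        have hZX : (insert h Y).erase E ⊆ insert h Y := Finset.erase_subset _ _
        have hhZ : h ∈ (insert h Y).erase E :=
          Finset.mem_erase.2 ⟨hEh.symm, Finset.mem_insert_self _ _⟩
        have e : pr E (Lam A B C a (cns h z)) =
            ((if h ∈ A ∧ E ∉ A then Hop A (a - 1) (rl (swap E h) (Hop B 1 (Hop C 1 z))) else 0) +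
              Hop A a ((if h ∈ B ∧ E ∉ B then Hop B (1 - 1) (rl (swap E h) (Hop C 1 z)) else 0) +
              (if h ∈ C ∧ E ∉ C then Hop B 1 (Hop C (1 - 1) (rl (swap E h) z)) else 0))) -
            ((if h ∈ A ∧ E ∉ A then Hop A (a + 1 - 1) (rl (swap E h) (Hop C 1 z)) else 0) +
              (if h ∈ C ∧ E ∉ C then Hop A (a + 1) (Hop C (1 - 1) (rl (swap E h) z)) else 0)) -
            (((if h ∈ A ∧ E ∉ A then Hop A (a + 1 - 1) (rl (swap E h) (Hop B 1 z)) else 0) +
              (if h ∈ B ∧ E ∉ B then Hop A (a + 1) (Hop B (1 - 1) (rl (swap E h) z)) else 0)) -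
              (if h ∈ A ∧ E ∉ A then Hop A (a + 2 - 1) (rl (swap E h) z) else 0)) := by
          unfold Lam
          rw [map_sub, map_sub, map_sub, pn3_ne hh hE hAB hBC a 1 1 hz,
            pn2_ne hh hE (hAB.trans hBC) (a + 1) 1 hz, pn2_ne hh hE hAB (a + 1) 1 hz,
            pr_Hop_ne hh hE A (a + 2) hz]
        rw [e]
        clear e
        have a1 : a + 1 - 1 = a := by ring
        have a2 : a + 2 - 1 = a + 1 := by ring
        have a3 : (1 : ℤ) - 1 = 0 := by norm_num
        rw [a1, a2, a3]
        simp only [Hop_zero, Module.End.one_apply]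
        have gB := gap_le (A := A) (B := B) hZX
        have gC := gap_le (A := A) (B := C) hZX
        by_cases hEA : E ∈ A
        · have hEB := hAB hEA
          have hEC := hBC hEB
          simp only [hEA, hEB, hEC, not_true_eq_false, and_false, if_false, add_zero, map_zero,
            sub_zero]
          exact WN.zero
        by_cases hhA : h ∈ A
        · have hhB := hAB hhA
          have hhC := hBC hhB
          simp only [hhA, hhB, hhC, hEA, true_and, not_false_eq_true, if_true]
          by_cases hEB : E ∈ B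
          · have hEC := hBC hEB
            simp only [hEB, hEC, not_true_eq_false, if_false, add_zero, map_zero]
            have g1 := gap_lt (A := A) (B := B) hE hEB hEA hhA
            have g2 := gap_lt (A := A) (B := C) hE hEC hEA hhA
            have e : Hop A (a - 1) (rl (swap E h) (Hop B 1 (Hop C 1 z))) -
                Hop A a (rl (swap E h) (Hop C 1 z)) -
                (Hop A a (rl (swap E h) (Hop B 1 z)) - Hop A (a + 1) (rl (swap E h) z)) =
                Lam A B C (a - 1) (rl (swap E h) z) := by
              unfold Lam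
              rw [cj_both hh hE hhB hEB 1 (Hop_mem _ _ hz), cj_both hh hE hhC hEC 1 hz,
                cj_both hh hE hhB hEB 1 hz]
              have b1 : a - 1 + 1 = a := by ring
              have b2 : a - 1 + 2 = a + 1 := by ring
              rw [b1, b2]
            rw [e]
            exact ih _ hZc A B C (a - 1) hAB hBC (by omega) (by omega) _ hzE hnE
          · by_cases hEC : E ∈ C
            · simp only [hEB, hEC, not_true_eq_false, not_false_eq_true, if_true, if_false,
                add_zero]
              have g2 := gap_lt (A := A) (B := C) hE hEC hEA hhA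
              have hBC' : B.erase h ⊆ C := (Finset.erase_subset _ _).trans hBC
              have e : Hop A (a - 1) (rl (swap E h) (Hop B 1 (Hop C 1 z))) +
                  Hop A a (rl (swap E h) (Hop C 1 z)) - Hop A a (rl (swap E h) (Hop C 1 z)) -
                  (Hop A a (rl (swap E h) (Hop B 1 z)) + Hop A (a + 1) (rl (swap E h) z) -
                    Hop A (a + 1) (rl (swap E h) z)) =
                  Hop A (a - 1) (Hop C 1 (Hop (B.erase h) 1 (rl (swap E h) z))) -
                    Hop A (a - 1 + 1) (Hop (B.erase h) 1 (rl (swap E h) z)) := by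
                rw [cj_out hh hE hEB 1 (Hop_mem _ _ hz), cj_both hh hE hhC hEC 1 hz,
                  cj_out hh hE hEB 1 hz, Hop_comm hBC' 1 1 hzE]
                have b1 : a - 1 + 1 = a := by ring
                rw [b1]
                abel
              rw [e]
              exact two_pos (hAB.trans hBC) (by omega) (by norm_num) (by omega)
                (Hop_mem _ _ hzE) (WN_Hop _ _ hzE hnE)
            · simp only [hEB, hEC, not_false_eq_true, if_true]
              have e : Hop A (a - 1) (rl (swap E h) (Hop B 1 (Hop C 1 z))) +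
                  Hop A a (rl (swap E h) (Hop C 1 z) + Hop B 1 (rl (swap E h) z)) -
                  (Hop A a (rl (swap E h) (Hop C 1 z)) + Hop A (a + 1) (rl (swap E h) z)) -
                  (Hop A a (rl (swap E h) (Hop B 1 z)) + Hop A (a + 1) (rl (swap E h) z) -
                    Hop A (a + 1) (rl (swap E h) z)) =
                  T2 ((insert h Y).erase E) A B C h a (rl (swap E h) z) := by
                unfold T2
                have hid := Hop_id1 hhA hAB hhZ (a + 1) hzE
                rw [a1] at hid
                rw [cj_out hh hE hEB 1 (Hop_mem _ _ hz), cj_out hh hE hEC 1 hz,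
                  cj_out hh hE hEB 1 hz, map_add, hid]
                abel
              rw [e]
              exact T2_pos hhA hAB hBC hhZ (by omega) (by omega) hzE hnE
        · by_cases hhB : h ∈ B
          · have hhC := hBC hhB
            simp only [hhA, hhB, hhC, false_and, true_and, if_false, zero_add, sub_zero]
            by_cases hEB : E ∈ B
            · have hEC := hBC hEB
              simp only [hEB, hEC, not_true_eq_false, if_false, add_zero, map_zero, sub_zero]
              exact WN.zero
            · by_cases hEC : E ∈ C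
              · simp only [hEB, hEC, not_true_eq_false, not_false_eq_true, if_true, if_false,
                  add_zero, sub_zero]
                rw [cj_both hh hE hhC hEC 1 hz]
                exact two_pos (hAB.trans hBC) (by omega) (by norm_num) (by omega) hzE hnE
              · simp only [hEB, hEC, not_false_eq_true, if_true]
                rw [cj_out hh hE hEC 1 hz, map_add]
                have hAC' : A ⊆ C.erase h := by
                  intro x hx
                  exact Finset.mem_erase.2 ⟨fun h' => hhA (h' ▸ hx), hBC (hAB hx)⟩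
                have g3 : (((C.erase h \ A) ∩ (insert h Y).erase E).card : ℤ) ≤
                    ((C \ A) ∩ (insert h Y).erase E).card := by
                  refine Int.ofNat_le.2 (Finset.card_le_card ?_)
                  exact Finset.inter_subset_inter_right
                    (Finset.sdiff_subset_sdiff (Finset.erase_subset _ _) (Finset.Subset.refl _))
                have p1 := two_pos hAC' (a := a) (b := 1) (by omega) (by norm_num) (by omega)
                  hzE hnE
                have p2 := two_pos hAB (a := a) (b := 1) (by omega) (by norm_num) (by omega)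
                  hzE hnE
                have p3 := WN.add p1 p2
                convert p3 using 1
                abel
          · by_cases hhC : h ∈ C
            · simp only [hhA, hhB, hhC, false_and, true_and, if_false, zero_add, sub_zero]
              by_cases hEC : E ∈ C
              · simp only [hEC, not_true_eq_false, if_false, map_zero, sub_zero]
                exact WN.zero
              · simp only [hEC, not_false_eq_true, if_true]
                exact two_pos hAB (by omega) (by norm_num) (by omega) hzE hnE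
            · simp only [hhA, hhB, hhC, false_and, if_false, zero_add, sub_zero, map_zero]
              exact WN.zero

theorem Lam_pos' {X A B C : Finset α} (hAB : A ⊆ B) (hBC : B ⊆ C) {a : ℤ}
    (h1 : (((B \ A) ∩ X).card : ℤ) + 1 ≤ a) (hC : (((C \ A) ∩ X).card : ℤ) ≤ a) {z : Wd α}
    (hz : z ∈ WS X) (hn : WN z) : WN (Lam A B C a z) :=
  Lam_pos_aux _ X rfl A B C a hAB hBC h1 hC z hz hn

theorem Lam_pos {X A B C : Finset α} (hAB : A ⊆ B) (hBC : B ⊆ C) {a : ℤ} (ha : 1 ≤ a)
    (h1 : ((B \ A) ∩ X).card ≤ 1) (h2 : ((B \ A) ∩ X).card = 1 → 2 ≤ a)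
    (hC : (((C \ A) ∩ X).card : ℤ) ≤ a) {z : Wd α} (hz : z ∈ WS X) (hn : WN z) :
    WN (Lam A B C a z) := by
  refine Lam_pos' hAB hBC ?_ hC hz hn
  by_cases h : ((B \ A) ∩ X).card = 1
  · have := h2 h
    omega
  · omega

end H50R
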