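import Pool.Agent.Helper10.CSB.G1
import Pool.Agent.Helper50.CSB.Q5
import Pool.Agent.Helper70.CSB.G2
import Pool.Agent.Helper80.CSB.G3

/-!
# Positivity of `D(a,2) C_1 - D(a,3)`
-/

namespace H50R

open H45C Equiv

variable {α : Type*} [DecidableEq α]

theorem Fk_mem {X : Finset α} (A B C : Finset α) (a : ℤ) {z : Wd α} (hz : z ∈ WS X) :
    Fk A B C a z ∈ WS X := by
  unfold Fk Dd
  exact Submodule.sub_mem _ (Submodule.sub_mem _ (Hop_mem _ _ (Hop_mem _ _ (Hop_mem _ _ hz)))
    (Hop_mem _ _ (Hop_mem _ _ (Hop_mem _ _ hz)))) (Submodule.sub_mem _
    (Hop_mem _ _ (Hop_mem _ _ hz)) (Hop_mem _ _ (Hop_mem _ _ hz)))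

/-- the operator `Fk` -/
noncomputable def FkE (A B C : Finset α) (a : ℤ) : Module.End ℤ (Wd α) :=
  (Hop A a * (Hop B 2 * Hop C 1) - Hop A (a + 2 - 1) * (Hop B 1 * Hop C 1)) -
    (Hop A a * Hop B 3 - Hop A (a + 3 - 1) * Hop B 1)

theorem FkE_apply (A B C : Finset α) (a : ℤ) (z : Wd α) : FkE A B C a z = Fk A B C a z := rfl

theorem Fk_pos_aux (n : ℕ) : ∀ X : Finset α, X.card = n → ∀ (A B C : Finset α) (a : ℤ),
    A ⊆ B → B ⊆ C → (((B \ A) ∩ X).card : ℤ) + 2 ≤ a → ((B \ A) ∩ X).card ≤ 1 →
    ((C \ B) ∩ X).card ≤ 1 → ∀ z : Wd α, z ∈ WS X → WN z → WN (Fk A B C a z) := by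
  induction n with
  | zero =>
    intro X hX A B C a _ _ ha' _ _ z hz hn
    have ha : 2 ≤ a := by omega
    refine WN_of_words (FkE A B C a) ?_ hz hn
    intro u hu huX
    rw [Finset.card_eq_zero] at hX
    have hu' : u = [] := by
      rw [hX, List.toFinset_eq_empty_iff] at huX
      exact huX
    subst hu'
    rw [FkE_apply]
    have e1 : Hop C 1 (wd ([] : List α)) = 0 := by
      rw [Hop_wd, hop_nil, if_neg (by norm_num)]
    have e2 : Hop B 3 (wd ([] : List α)) = 0 := by
      rw [Hop_wd, hop_nil, if_neg (by norm_num)]
    have e3 : Hop B 1 (wd ([] : List α)) = 0 := by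
      rw [Hop_wd, hop_nil, if_neg (by norm_num)]
    unfold Fk Dd
    rw [e1, e2, e3]
    simp only [map_zero, sub_zero]
    exact WN.zero
  | succ n ih =>
    intro X hX A B C a hAB hBC ha' h1 h2 z hz hn
    have ha : 2 ≤ a := by omega
    refine WN_of_words (FkE A B C a) ?_ hz hn
    intro u hu huX
    rw [FkE_apply]
    clear hz hn z
    match u, hu, huX with
    | [], _, huX =>
      rw [List.toFinset_nil] at huX
      rw [← huX] at hX
      simp at hX
    | h :: u, hu, huX =>
      obtain ⟨hq, hu'⟩ := List.nodup_cons.1 hu
      obtain ⟨Y, hY⟩ : ∃ Y, Y = u.toFinset := ⟨_, rfl⟩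
      have hh : h ∉ Y := fun h' => hq (List.mem_toFinset.1 (hY ▸ h'))
      have hXi : X = insert h Y := by
        rw [← huX, List.toFinset_cons, hY]
      have hz : wd u ∈ WS Y := wd_mem u hu' hY.symm
      have hn : WN (wd u) := WN.wd u
      rw [← cns_wd]
      generalize wd u = z at hz hn
      clear hu hq hu' huX hY u
      subst hXi
      have hYc : Y.card = n := by
        rw [Finset.card_insert_of_notMem hh] at hX
        omega
      have hzX : Fk A B C a (cns h z) ∈ WS (insert h Y) := Fk_mem A B C a (cns_mem hh hz)
      refine WN_of_pr ⟨h, Finset.mem_insert_self _ _⟩ hzX ?_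
      have hsub : Y ⊆ insert h Y := Finset.subset_insert _ _
      intro E hE
      rcases Finset.mem_insert.1 hE with rfl | hE
      · -- the same letter
        have e : pr E (Fk A B C a (cns E z)) = Fk A B C a z := by
          unfold Fk Dd
          rw [map_sub, map_sub, map_sub, pn3_self hh hAB hBC a 2 1 hz,
            pn3_self hh hAB hBC (a + 2 - 1) 1 1 hz, pn2_self hh hAB a 3 hz,
            pn2_self hh hAB (a + 3 - 1) 1 hz]
        rw [e]
        have g1 := gap_le (A := A) (B := B) hsub
        have g2 := gap_le (A := B) (B := C) hsub
        exact ih Y hYc A B C a hAB hBC (by omega) (by omega) (by omega) z hz hn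
      · -- another letter
        have hEh : E ≠ h := fun h' => hh (h' ▸ hE)
        have hzE : rl (swap E h) z ∈ WS ((insert h Y).erase E) := swap_mem hh hE hz
        have hnE : WN (rl (swap E h) z) := WN_rl _ hn
        have hZc : ((insert h Y).erase E).card = n := by
          rw [Finset.card_erase_of_mem (Finset.mem_insert_of_mem hE), hX]
          rfl
        have hZX : (insert h Y).erase E ⊆ insert h Y := Finset.erase_subset _ _
        have hhZ : h ∈ (insert h Y).erase E :=
          Finset.mem_erase.2 ⟨hEh.symm, Finset.mem_insert_self _ _⟩
        have e : pr E (Fk A B C a (cns h z)) =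
            (((if h ∈ A ∧ E ∉ A then Hop A (a - 1) (rl (swap E h) (Hop B 2 (Hop C 1 z)))
                else 0) +
              Hop A a ((if h ∈ B ∧ E ∉ B then Hop B (2 - 1) (rl (swap E h) (Hop C 1 z)) else 0) +
              (if h ∈ C ∧ E ∉ C then Hop B 2 (Hop C (1 - 1) (rl (swap E h) z)) else 0))) -
            ((if h ∈ A ∧ E ∉ A then Hop A (a + 2 - 1 - 1)
                (rl (swap E h) (Hop B 1 (Hop C 1 z))) else 0) +
              Hop A (a + 2 - 1) ((if h ∈ B ∧ E ∉ B then
                Hop B (1 - 1) (rl (swap E h) (Hop C 1 z)) else 0) +
              (if h ∈ C ∧ E ∉ C then Hop B 1 (Hop C (1 - 1) (rl (swap E h) z)) else 0)))) -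
            (((if h ∈ A ∧ E ∉ A then Hop A (a - 1) (rl (swap E h) (Hop B 3 z)) else 0) +
              (if h ∈ B ∧ E ∉ B then Hop A a (Hop B (3 - 1) (rl (swap E h) z)) else 0)) -
            ((if h ∈ A ∧ E ∉ A then Hop A (a + 3 - 1 - 1) (rl (swap E h) (Hop B 1 z)) else 0) +
              (if h ∈ B ∧ E ∉ B then Hop A (a + 3 - 1) (Hop B (1 - 1) (rl (swap E h) z))
                else 0))) := by
          unfold Fk Dd
          rw [map_sub, map_sub, map_sub, pn3_ne hh hE hAB hBC a 2 1 hz,
            pn3_ne hh hE hAB hBC (a + 2 - 1) 1 1 hz, pn2_ne hh hE hAB a 3 hz,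
            pn2_ne hh hE hAB (a + 3 - 1) 1 hz]
        rw [e]
        clear e
        have a1 : a + 2 - 1 = a + 1 := by ring
        have a2 : a + 1 - 1 = a := by ring
        have a3 : (1 : ℤ) - 1 = 0 := by norm_num
        have a4 : (2 : ℤ) - 1 = 1 := by norm_num
        have a5 : (3 : ℤ) - 1 = 2 := by norm_num
        have a6 : a + 3 - 1 = a + 2 := by ring
        rw [a1, a2, a3, a4, a5, a6, a1]
        simp only [Hop_zero, Module.End.one_apply]
        have gB := gap_le (A := A) (B := B) hZX
        have gC := gap_le (A := B) (B := C) hZX
        by_cases hEA : E ∈ A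
        · have hEB := hAB hEA
          have hEC := hBC hEB
          simp only [hEA, hEB, hEC, not_true_eq_false, and_false, if_false, add_zero, map_zero,
            sub_zero]
          exact WN.zero
        by_cases hhA : h ∈ A
        · have hhB := hAB hhA
          have hhC := hBC hhB
          simp only [hhA, hhB, hhC, hEA, true_and, not_false_eq_true, if_true]
          by_cases hEB : E ∈ B
          · have hEC := hBC hEB
            simp only [hEB, hEC, not_true_eq_false, if_false, add_zero, map_zero]
            have g1 := gap_lt (A := A) (B := B) hE hEB hEA hhA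
            have e : Hop A (a - 1) (rl (swap E h) (Hop B 2 (Hop C 1 z))) -
                Hop A a (rl (swap E h) (Hop B 1 (Hop C 1 z))) -
                (Hop A (a - 1) (rl (swap E h) (Hop B 3 z)) -
                  Hop A (a + 1) (rl (swap E h) (Hop B 1 z))) =
                Fk A B C (a - 1) (rl (swap E h) z) := by
              unfold Fk Dd
              rw [cj_both hh hE hhB hEB 2 (Hop_mem _ _ hz), cj_both hh hE hhC hEC 1 hz,
                cj_both hh hE hhB hEB 1 (Hop_mem _ _ hz), cj_both hh hE hhC hEC 1 hz,
                cj_both hh hE hhB hEB 3 hz, cj_both hh hE hhB hEB 1 hz]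
              have b1 : a - 1 + 2 - 1 = a := by ring
              have b2 : a - 1 + 3 - 1 = a + 1 := by ring
              rw [b1, b2]
            rw [e]
            exact ih _ hZc A B C (a - 1) hAB hBC (by omega) (by omega) (by omega) _ hzE hnE
          · -- `E ∉ B`
            have hid1 : ∀ y ∈ WS ((insert h Y).erase E), Hop A (a - 1) (Hop (B.erase h) 2 y) +
                Hop A a (Hop B 1 y) - Hop A a (Hop (B.erase h) 1 y) - Hop A (a + 1) y =
                rho ((insert h Y).erase E) A B h (a - 1) 2 y := by
              intro y hy
              have hid := Hop_id1 hhA hAB hhZ (a + 1) hy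
              rw [a2] at hid
              unfold rho
              have b1 : a - 1 + 2 = a + 1 := by ring
              rw [b1, a2, hid]
              abel
            have hid2 := Hop_id1 hhA hAB hhZ (a + 2) hzE
            have b3 : a + 2 - 1 = a + 1 := by ring
            rw [b3] at hid2
            by_cases hEC : E ∈ C
            · simp only [hEB, hEC, not_true_eq_false, not_false_eq_true, if_true, if_false,
                add_zero]
              have g2 : (((C \ B) ∩ (insert h Y).erase E).card : ℤ) + 1 ≤
                  ((C \ B) ∩ insert h Y).card := gap_lt hE hEC hEB hhB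
              have hCB : Hop C 1 (rl (swap E h) z) = Hop B 1 (rl (swap E h) z) := by
                refine Hop_congr ?_ 1 hzE
                intro x hx
                refine ⟨fun hxC => ?_, fun hxB => hBC hxB⟩
                by_contra hxB
                have : x ∈ (C \ B) ∩ (insert h Y).erase E :=
                  Finset.mem_inter.2 ⟨Finset.mem_sdiff.2 ⟨hxC, hxB⟩, hx⟩
                have h0 : (C \ B) ∩ (insert h Y).erase E = ∅ := by
                  rw [← Finset.card_eq_zero]
                  omega
                rw [h0] at this
                exact absurd this (Finset.notMem_empty _)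
              have e : Hop A (a - 1) (rl (swap E h) (Hop B 2 (Hop C 1 z))) +
                  Hop A a (Hop B 1 (rl (swap E h) (Hop C 1 z))) -
                  (Hop A a (rl (swap E h) (Hop B 1 (Hop C 1 z))) +
                    Hop A (a + 1) (rl (swap E h) (Hop C 1 z))) -
                  (Hop A (a - 1) (rl (swap E h) (Hop B 3 z)) +
                    Hop A a (Hop B 2 (rl (swap E h) z)) -
                    (Hop A (a + 1) (rl (swap E h) (Hop B 1 z)) +
                      Hop A (a + 2) (rl (swap E h) z))) =
                  nuk ((insert h Y).erase E) A B h (a - 1) (rl (swap E h) z) := by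
                rw [cj_out hh hE hEB 2 (Hop_mem _ _ hz), cj_both hh hE hhC hEC 1 hz,
                  cj_out hh hE hEB 1 (Hop_mem _ _ hz), cj_both hh hE hhC hEC 1 hz,
                  cj_out hh hE hEB 3 hz, cj_out hh hE hEB 1 hz, hCB]
                rw [← nu_eq hhA hAB hhZ (a - 1) hzE, ← hid1 _ (Hop_mem _ _ hzE)]
                unfold rho Dd
                have b1 : a - 1 + 3 = a + 2 := by ring
                have b2 : a - 1 + 1 = a := by ring
                rw [b1, b2, b3, hid2]
                abel
              rw [e]
              exact nu_pos hhA hAB hhZ (by omega) (by omega) hzE hnE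
            · simp only [hEB, hEC, not_false_eq_true, if_true]
              have e : Hop A (a - 1) (rl (swap E h) (Hop B 2 (Hop C 1 z))) +
                  Hop A a (Hop B 1 (rl (swap E h) (Hop C 1 z)) + Hop B 2 (rl (swap E h) z)) -
                  (Hop A a (rl (swap E h) (Hop B 1 (Hop C 1 z))) +
                    Hop A (a + 1) (rl (swap E h) (Hop C 1 z) + Hop B 1 (rl (swap E h) z))) -
                  (Hop A (a - 1) (rl (swap E h) (Hop B 3 z)) +
                    Hop A a (Hop B 2 (rl (swap E h) z)) -
                    (Hop A (a + 1) (rl (swap E h) (Hop B 1 z)) +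
                      Hop A (a + 2) (rl (swap E h) z))) =
                  tauk ((insert h Y).erase E) A B C h (a - 1) (rl (swap E h) z) := by
                rw [cj_out hh hE hEB 2 (Hop_mem _ _ hz), cj_out hh hE hEC 1 hz,
                  cj_out hh hE hEB 1 (Hop_mem _ _ hz), cj_out hh hE hEC 1 hz,
                  cj_out hh hE hEB 3 hz, cj_out hh hE hEB 1 hz]
                unfold tauk
                rw [← hid1 _ (Hop_mem _ _ hzE)]
                unfold rho
                have b1 : a - 1 + 3 = a + 2 := by ring
                rw [b1, b3, hid2, map_add, map_add]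
                abel
              rw [e]
              exact tau_pos hhA hAB hBC hhZ (by omega) (by omega) (by omega) hzE hnE
        · by_cases hhB : h ∈ B
          · have hhC := hBC hhB
            simp only [hhA, hhB, hhC, false_and, true_and, if_false, zero_add]
            by_cases hEB : E ∈ B
            · have hEC := hBC hEB
              simp only [hEB, hEC, not_true_eq_false, if_false, add_zero, map_zero, sub_zero]
              exact WN.zero
            · by_cases hEC : E ∈ C
              · simp only [hEB, hEC, not_true_eq_false, not_false_eq_true, if_true, if_false,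
                  add_zero]
                rw [cj_both hh hE hhC hEC 1 hz]
                have e : Hop A a (Hop B 1 (Hop C 1 (rl (swap E h) z))) -
                    Hop A (a + 1) (Hop C 1 (rl (swap E h) z)) -
                    (Hop A a (Hop B 2 (rl (swap E h) z)) - Hop A (a + 2) (rl (swap E h) z)) =
                    R3 A B C a 1 1 (rl (swap E h) z) := by
                  unfold R3
                  have b1 : a + 1 + 1 = a + 2 := by ring
                  have b2 : (1 : ℤ) + 1 = 2 := by norm_num
                  rw [b1, b2]
                  abel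
                rw [e]
                have g3 := card_gap_trans ((insert h Y).erase E) A B C
                exact R3_pos hAB hBC (by omega) le_rfl le_rfl (by omega) (fun _ => by omega)
                  (fun h' => absurd rfl h') hzE hnE
              · simp only [hEB, hEC, not_false_eq_true, if_true]
                rw [cj_out hh hE hEC 1 hz]
                have e : Hop A a (Hop B 1 (Hop (C.erase h) 1 (rl (swap E h) z)) +
                      Hop B 2 (rl (swap E h) z)) -
                    Hop A (a + 1) (Hop (C.erase h) 1 (rl (swap E h) z) +
                      Hop B 1 (rl (swap E h) z)) -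
                    (Hop A a (Hop B 2 (rl (swap E h) z)) - Hop A (a + 2) (rl (swap E h) z)) =
                    kapa A B (C.erase h) a (rl (swap E h) z) := by
                  unfold kapa
                  rw [map_add, map_add]
                  abel
                rw [e]
                have hbX : h ∈ (B \ A) ∩ (insert h Y).erase E :=
                  Finset.mem_inter.2 ⟨Finset.mem_sdiff.2 ⟨hhB, hhA⟩, hhZ⟩
                have hone : (B \ A) ∩ (insert h Y).erase E = {h} := by
                  symm
                  refine Finset.eq_of_subset_of_card_le (Finset.singleton_subset_iff.2 hbX) ?_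
                  rw [Finset.card_singleton]
                  omega
                have hAC' : A ⊆ C.erase h := fun x hx =>
                  Finset.mem_erase.2 ⟨fun h' => hhA (h' ▸ hx), hBC (hAB hx)⟩
                refine kapa_pos hAB hAC' ?_ ha (by omega) ?_ hzE hnE
                · intro x hx hxB hxC
                  by_contra hxA
                  have hx' : x ∈ (B \ A) ∩ (insert h Y).erase E :=
                    Finset.mem_inter.2 ⟨Finset.mem_sdiff.2 ⟨hxB, hxA⟩, hx⟩
                  rw [hone, Finset.mem_singleton] at hx'
                  exact absurd hx' (Finset.mem_erase.1 hxC).1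
                · have hsubC : (C.erase h \ A) ∩ (insert h Y).erase E ⊆
                      (C \ B) ∩ (insert h Y).erase E := by
                    intro x hx
                    rw [Finset.mem_inter, Finset.mem_sdiff, Finset.mem_erase] at hx
                    refine Finset.mem_inter.2 ⟨Finset.mem_sdiff.2 ⟨hx.1.1.2, fun hxB => ?_⟩, hx.2⟩
                    have hx' : x ∈ (B \ A) ∩ (insert h Y).erase E :=
                      Finset.mem_inter.2 ⟨Finset.mem_sdiff.2 ⟨hxB, hx.1.2⟩, hx.2⟩
                    rw [hone, Finset.mem_singleton] at hx'
                    exact hx.1.1.1 hx'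
                  have := Finset.card_le_card hsubC
                  omega
          · by_cases hhC : h ∈ C
            · simp only [hhA, hhB, hhC, false_and, true_and, if_false, zero_add, sub_zero]
              by_cases hEC : E ∈ C
              · simp only [hEC, not_true_eq_false, if_false, map_zero, sub_zero]
                exact WN.zero
              · simp only [hEC, not_false_eq_true, if_true]
                have e : Hop A a (Hop B 2 (rl (swap E h) z)) -
                    Hop A (a + 1) (Hop B 1 (rl (swap E h) z)) =
                    Dd A B a 2 (rl (swap E h) z) := by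
                  unfold Dd
                  rw [a1]
                rw [e]
                exact Dd_pos hAB (by omega) (by norm_num) hzE hnE
            · simp only [hhA, hhB, hhC, false_and, if_false, zero_add, sub_zero, map_zero]
              exact WN.zero

theorem Fk_pos {X A B C : Finset α} (hAB : A ⊆ B) (hBC : B ⊆ C) {a : ℤ}
    (ha : (((B \ A) ∩ X).card : ℤ) + 2 ≤ a) (h1 : ((B \ A) ∩ X).card ≤ 1)
    (h2 : ((C \ B) ∩ X).card ≤ 1) {z : Wd α} (hz : z ∈ WS X) (hn : WN z) :
    WN (Fk A B C a z) :=
  Fk_pos_aux _ X rfl A B C a hAB hBC ha h1 h2 z hz hn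

end H50R
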