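import Pool.Agent.Helper50.CSB.Q8
import Pool.Agent.Helper82.CSB.G5

/-!
# Supports without four consecutive simple reflections
-/

namespace H50R

open H45C Equiv MvPolynomial

variable {m : ℕ}

/-- one row of a permutation of a window -/
theorem win_step (j d : ℕ) (v : WG m)
    (hv : ∀ x : Fin (m + 1), (x : ℕ) < j ∨ j + d < (x : ℕ) → v x = x) :
    ∃ c w, c ≤ d ∧ (c = 0 ∨ j + c ≤ m) ∧
      (∀ x : Fin (m + 1), (x : ℕ) < j + 1 ∨ j + d < (x : ℕ) → w x = x) ∧
      v = row m j c * w ∧ inv v = c + inv w := by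
  by_cases hj : m < j
  · refine ⟨0, v, Nat.zero_le _, Or.inl rfl, fun x _ => hv x (Or.inl (by have := x.2; omega)), ?_,
      by simp⟩
    simp [row]
  · push Not at hj
    obtain ⟨J, hJ⟩ : ∃ J : Fin (m + 1), (J : ℕ) = j := ⟨⟨j, by omega⟩, rfl⟩
    have h1 : j ≤ ((v J : Fin (m + 1)) : ℕ) := by
      by_contra h
      push Not at h
      have h2 := hv (v J) (Or.inl h)
      have h3 := v.injective h2
      rw [h3] at h
      omega
    have h2 : ((v J : Fin (m + 1)) : ℕ) ≤ j + d := by
      by_contra h
      push Not at h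
      have h2 := hv (v J) (Or.inr h)
      have h3 := v.injective h2
      rw [h3] at h
      omega
    obtain ⟨c, hc⟩ : ∃ c, ((v J : Fin (m + 1)) : ℕ) = J + c := ⟨((v J : Fin (m + 1)) : ℕ) - j,
      by omega⟩
    obtain ⟨w, hw1, hw2, hw3⟩ := c1_row J c v (fun x hx => hv x (Or.inl (by
      rw [Fin.lt_def] at hx
      omega))) hc
    rw [hJ] at hw2 hc
    have hvJ := (v J).2
    refine ⟨c, w, by omega, Or.inr (by omega), ?_, hw2, hw3⟩
    intro x hx
    rcases hx with hx | hx
    · exact hw1 x (by rw [Fin.le_def]; omega)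
    · have h4 : v x = x := hv x (Or.inr hx)
      have h5 : row m j c x = x := c2_row_gt c j x (by omega)
      rw [hw2, Perm.mul_apply] at h4
      exact (row m j c).injective (h4.trans h5.symm)

/-- all permutations of a window of four positions -/
theorem EE_window (i : ℕ) (u : WG m)
    (hu : ∀ x : Fin (m + 1), (x : ℕ) < i ∨ i + 3 < (x : ℕ) → u x = x) : EE u := by
  obtain ⟨c0, w1, h1, g1, hw1, e1, n1⟩ := win_step i 3 u hu
  obtain ⟨c1, w2, h2, g2, hw2, e2, n2⟩ := win_step (i + 1) 2 w1 (fun x hx => hw1 x (by omega))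
  obtain ⟨c2, w3, h3, g3, hw3, e3, n3⟩ := win_step (i + 2) 1 w2 (fun x hx => hw2 x (by omega))
  have hw : w3 = 1 := by
    have hfix : ∀ x : Fin (m + 1), (x : ℕ) ≠ i + 3 → w3 x = x := fun x hx => hw3 x (by omega)
    ext x
    rw [Perm.one_apply]
    by_cases hx : (x : ℕ) = i + 3
    · by_contra h
      have h5 : ((w3 x : Fin (m + 1)) : ℕ) ≠ i + 3 := fun h' => h (by rw [h', hx])
      have h6 := hfix (w3 x) h5
      exact h (by rw [w3.injective h6])
    · rw [hfix x hx]
  subst hw
  rw [inv_one] at n3
  by_cases h : inv u ≤ 5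
  · exact EE_five u h
  · have k0 : c0 = 3 := by omega
    have k1 : c1 = 2 := by omega
    have k2 : c2 = 1 := by omega
    subst k0 k1 k2
    rw [e1, e2, e3]
    exact EE_321 i (by omega)

theorem wp_fix (l : List (Fin m)) (x : Fin (m + 1))
    (h : ∀ k ∈ l, (x : ℕ) ≠ k ∧ (x : ℕ) ≠ k + 1) : wp l x = x := by
  induction l with
  | nil => rfl
  | cons k l ih =>
    have h1 := h k List.mem_cons_self
    rw [wp, Perm.mul_apply, sg_of_ne k x h1.1 h1.2]
    exact ih fun k' hk' => h k' (List.mem_cons_of_mem _ hk')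

theorem sg_far (a b : Fin m) (h : (a : ℕ) + 1 < b) : sg b * sg a = sg a * sg b := by
  ext x
  rw [Perm.mul_apply, Perm.mul_apply]
  by_cases hx : (x : ℕ) = a ∨ (x : ℕ) = a + 1
  · rw [sg_of_ne b x (by omega) (by omega)]
    rcases hx with hx | hx
    · have e : x = a.castSucc := Fin.ext hx
      subst e
      have e2 : sg a a.castSucc = a.succ := swap_apply_left _ _
      rw [e2, sg_of_ne b a.succ (by rw [Fin.val_succ]; omega) (by rw [Fin.val_succ]; omega)]
    · have e : x = a.succ := Fin.ext hx
      subst e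
      have e2 : sg a a.succ = a.castSucc := swap_apply_right _ _
      rw [e2, sg_of_ne b a.castSucc (by rw [Fin.val_castSucc]; omega)
        (by rw [Fin.val_castSucc]; omega)]
  · push Not at hx
    rw [sg_of_ne a x hx.1 hx.2]
    by_cases hy : (x : ℕ) = b ∨ (x : ℕ) = b + 1
    · rcases hy with hy | hy
      · have e : x = b.castSucc := Fin.ext hy
        subst e
        have e2 : sg b b.castSucc = b.succ := swap_apply_left _ _
        rw [e2, sg_of_ne a b.succ (by rw [Fin.val_succ]; omega) (by rw [Fin.val_succ]; omega)]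
      · have e : x = b.succ := Fin.ext hy
        subst e
        have e2 : sg b b.succ = b.castSucc := swap_apply_right _ _
        rw [e2, sg_of_ne a b.castSucc (by rw [Fin.val_castSucc]; omega)
          (by rw [Fin.val_castSucc]; omega)]
    · push Not at hy
      rw [sg_of_ne b x hy.1 hy.2, sg_of_ne a x hx.1 hx.2]

theorem wp_comm_far (a : Fin m) (l : List (Fin m)) (h : ∀ b ∈ l, (a : ℕ) + 1 < b) :
    wp l * sg a = sg a * wp l := by
  induction l with
  | nil => simp [wp]
  | cons b l ih =>
    rw [wp, mul_assoc, sg_far a b (h b List.mem_cons_self), ← mul_assoc,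
      ih fun c hc => h c (List.mem_cons_of_mem _ hc), mul_assoc]

theorem wp_split (j : ℕ) (l : List (Fin m)) (hj : ∀ k ∈ l, (k : ℕ) ≠ j) :
    wp l = wp (l.filter fun k => (k : ℕ) < j) * wp (l.filter fun k => j < (k : ℕ)) := by
  induction l with
  | nil => simp [wp]
  | cons k l ih =>
    have ih' := ih fun k' hk' => hj k' (List.mem_cons_of_mem _ hk')
    have hk := hj k List.mem_cons_self
    rw [wp, ih']
    by_cases h : (k : ℕ) < j
    · rw [List.filter_cons_of_pos (by simpa using h),
        List.filter_cons_of_neg (by simp; omega), wp, mul_assoc, mul_assoc,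
        wp_comm_far k _ (fun b hb => by
          have := List.of_mem_filter hb
          simp at this
          omega)]
    · rw [List.filter_cons_of_neg (by simpa using h),
        List.filter_cons_of_pos (by simp; omega), wp, mul_assoc]

/-- **Supports without four consecutive simple reflections.** -/
theorem EE_nofour (n : ℕ) : ∀ l : List (Fin m), l.length = n →
    (∀ i : ℕ, ¬ ∀ t < 4, ∃ k ∈ l, (k : ℕ) = i + t) → EE (wp l) := by
  induction n using Nat.strong_induction_on with
  | _ n ih =>
  intro l hn hl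
  by_cases hne : l = []
  · subst hne
    exact EE_one
  · -- the least letter
    obtain ⟨a, ha, hmin⟩ : ∃ a ∈ l, ∀ b ∈ l, (a : ℕ) ≤ b := by
      obtain ⟨a, ha, hmin⟩ := Finset.exists_min_image l.toFinset (fun k : Fin m => (k : ℕ))
        ((List.toFinset_nonempty_iff l).2 hne)
      exact ⟨a, List.mem_toFinset.1 ha, fun b hb => hmin b (List.mem_toFinset.2 hb)⟩
    obtain ⟨j, hj1, hj2, hj3⟩ : ∃ j : ℕ, (a : ℕ) < j ∧ j ≤ a + 3 ∧ ∀ k ∈ l, (k : ℕ) ≠ j := by
      by_contra hcon
      push Not at hcon
      refine hl a fun t ht => ?_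
      by_cases ht0 : t = 0
      · exact ⟨a, ha, by omega⟩
      · obtain ⟨k, hk1, hk2⟩ := hcon (a + t) (by omega) (by omega)
        exact ⟨k, hk1, hk2⟩
    rw [wp_split j l hj3]
    refine EE_mul (j + 1) _ _ ?_ ?_ ?_ ?_
    · intro x hx
      refine wp_fix _ x fun k hk => ?_
      have := List.of_mem_filter hk
      simp at this
      omega
    · intro x hx
      refine wp_fix _ x fun k hk => ?_
      have := List.of_mem_filter hk
      simp at this
      omega
    · refine EE_window a _ fun x hx => wp_fix _ x fun k hk => ?_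
      have h1 := List.of_mem_filter hk
      have h2 := hmin k (List.mem_of_mem_filter hk)
      simp at h1
      omega
    · refine ih _ ?_ _ rfl ?_
      · rw [← hn]
        refine List.length_filter_lt_length_iff_exists.2 ⟨a, ha, ?_⟩
        simp
        omega
      · intro i hi
        refine hl i fun t ht => ?_
        obtain ⟨k, hk1, hk2⟩ := hi t ht
        exact ⟨k, List.mem_of_mem_filter hk1, hk2⟩

end H50R
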