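import Pool.Agent.Helper50.CSB.Main

/-!
# Length at most five: definitions
-/

namespace H50R

open H45C Equiv MvPolynomial

variable {α : Type*} [DecidableEq α]

/-- the part of the words with first letter `E`, without this letter -/
noncomputable def pr (E : α) : Wd α →ₗ[ℤ] Wd α :=
  Finsupp.lcomapDomain (List.cons E) List.cons_injective

/-- `A_k B'_e - A'_{k+e} - ∑ A_{k+e-1} σ_{qℓ}`, with `A' = A \ {q}`, `B' = B \ {q}`, the sum over
the `ℓ ∈ (B \ A) ∩ X` (applied to an element of `WS X`) -/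
noncomputable def rho (X A B : Finset α) (q : α) (k e : ℤ) (z : Wd α) : Wd α :=
  Hop A k (Hop (B.erase q) e z) - Hop (A.erase q) (k + e) z -
    ∑ l ∈ (B \ A) ∩ X, Hop A (k + e - 1) (rl (swap q l) z)

/-- `A_a B_b - A_{a+b-1} B_1` -/
noncomputable def Dd (A B : Finset α) (a b : ℤ) (z : Wd α) : Wd α :=
  Hop A a (Hop B b z) - Hop A (a + b - 1) (Hop B 1 z)

/-- `A_{a-1} B'_1 C'_1 - A'_{a+1} - ∑ A_a σ_{qℓ}`, with `A' = A \ {q}`, `B' = B \ {q}`,
`C' = C \ {q}`, the sum over the `ℓ ∈ (B \ A) ∩ X` -/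
noncomputable def T2 (X A B C : Finset α) (q : α) (a : ℤ) (z : Wd α) : Wd α :=
  Hop A (a - 1) (Hop (B.erase q) 1 (Hop (C.erase q) 1 z)) - Hop (A.erase q) (a + 1) z -
    ∑ l ∈ (B \ A) ∩ X, Hop A a (rl (swap q l) z)

/-- `r_a C_1 - r_{a+1}`, with `r_k = A_k B_1 - A_{k+1}` -/
noncomputable def Lam (A B C : Finset α) (a : ℤ) (z : Wd α) : Wd α :=
  Hop A a (Hop B 1 (Hop C 1 z)) - Hop A (a + 1) (Hop C 1 z) -
    (Hop A (a + 1) (Hop B 1 z) - Hop A (a + 2) z)

variable {m : ℕ}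

/-- the class of `v` has a representative which acts nonnegatively -/
def EE (v : WG m) : Prop := ∃ Q : Pol m, IsSchub v Q ∧ PP Q

/-- increasing positions, positive entries, letters `< m` -/
def Srt (m : ℕ) (L : List (ℕ × ℕ)) : Prop :=
  L.Pairwise (fun b c => b.1 < c.1) ∧ ∀ b ∈ L, 1 ≤ b.2 ∧ b.1 + b.2 ≤ m

end H50R
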