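import Pool.Agent.Helper4.CSB.C12
import Pool.Agent.Helper37.CSB.C3
import Pool.Agent.Helper82.CSB.C5

/-!
# All permutations of length at most five
-/

namespace H50R

open H45C Equiv MvPolynomial

variable {m : ℕ}

theorem EE_good (L : List (ℕ × ℕ)) (h : Good m L) : EE (vb m L) :=
  ⟨pb m L, isSchub_pb L h, PP_pb L h⟩

theorem srt1 {i x : ℕ} : Srt m [(i, x)] ↔ 1 ≤ x ∧ i + x ≤ m := by
  unfold Srt
  simp

theorem srt2 {i x j y : ℕ} : Srt m [(i, x), (j, y)] ↔
    i < j ∧ 1 ≤ x ∧ i + x ≤ m ∧ 1 ≤ y ∧ j + y ≤ m := by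
  unfold Srt
  simp
  omega

theorem srt3 {i x j y k w : ℕ} : Srt m [(i, x), (j, y), (k, w)] ↔
    i < j ∧ j < k ∧ 1 ≤ x ∧ i + x ≤ m ∧ 1 ≤ y ∧ j + y ≤ m ∧ 1 ≤ w ∧ k + w ≤ m := by
  unfold Srt
  simp
  omega

theorem srt4 {i x j y k w l t : ℕ} : Srt m [(i, x), (j, y), (k, w), (l, t)] ↔
    i < j ∧ j < k ∧ k < l ∧ 1 ≤ x ∧ i + x ≤ m ∧ 1 ≤ y ∧ j + y ≤ m ∧ 1 ≤ w ∧ k + w ≤ m ∧
      1 ≤ t ∧ l + t ≤ m := by
  unfold Srt
  simp
  omega

theorem EE1 {i x : ℕ} (h1 : 1 ≤ x) (h2 : i + x ≤ m) : EE (vb m [(i, x)]) :=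
  EE_good _ ⟨h1, h2⟩

theorem EE2 {i x j y : ℕ} (h0 : i < j) (h1 : 1 ≤ x) (h2 : i + x ≤ m) (h3 : 1 ≤ y)
    (h4 : j + y ≤ m) (hs : x + y ≤ 5) : EE (vb m [(i, x), (j, y)]) := by
  refine EE_two i x j y h0 h1 h3 h2 h4 ?_
  omega

theorem EE3 {i x j y k w : ℕ} (h0 : i < j) (h0' : j < k) (h1 : 1 ≤ x) (h2 : i + x ≤ m)
    (h3 : 1 ≤ y) (h4 : j + y ≤ m) (h5 : 1 ≤ w) (h6 : k + w ≤ m) (hs : x + y + w ≤ 5) :
    EE (vb m [(i, x), (j, y), (k, w)]) := by
  by_cases c1 : i + x < j
  · refine EE_append j [(i, x)] [(j, y), (k, w)] (srt1.2 ⟨h1, h2⟩)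
      (srt2.2 ⟨h0', h3, h4, h5, h6⟩) ?_ ?_ (EE1 h1 h2) (EE2 h0' h3 h4 h5 h6 (by omega))
    · intro b hb
      simp only [List.mem_cons, List.not_mem_nil, or_false] at hb
      subst hb
      exact c1
    · intro b hb
      simp only [List.mem_cons, List.not_mem_nil, or_false] at hb
      rcases hb with rfl | rfl
      · exact le_rfl
      · exact h0'.le
  by_cases c2 : i + x < k ∧ j + y < k
  · refine EE_append k [(i, x), (j, y)] [(k, w)] (srt2.2 ⟨h0, h1, h2, h3, h4⟩)
      (srt1.2 ⟨h5, h6⟩) ?_ ?_ (EE2 h0 h1 h2 h3 h4 (by omega)) (EE1 h5 h6)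
    · intro b hb
      simp only [List.mem_cons, List.not_mem_nil, or_false] at hb
      rcases hb with rfl | rfl
      · exact c2.1
      · exact c2.2
    · intro b hb
      simp only [List.mem_cons, List.not_mem_nil, or_false] at hb
      subst hb
      exact le_rfl
  by_cases c3 : i + x ≤ j ∧ j + y ≤ k
  · exact EE_good _ ⟨h1, c3.1, h3, c3.2, h5, h6⟩
  obtain ⟨p, rfl⟩ : ∃ p, j = i + p := ⟨j - i, by omega⟩
  obtain ⟨r, rfl⟩ : ∃ r, k = i + r := ⟨k - i, by omega⟩
  have hx : x ≤ 3 := by omega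
  have hy : y ≤ 3 := by omega
  have hw : w ≤ 3 := by omega
  have hp : p ≤ 3 := by omega
  have hp1 : 1 ≤ p := by omega
  have hr : r ≤ 6 := by omega
  have hr1 : 2 ≤ r := by omega
  interval_cases x <;> interval_cases y <;> interval_cases w <;> first | omega | skip
  all_goals
    interval_cases p <;> interval_cases r <;> first
      | omega
      | exact EE_311 i (by omega)
      | exact EE_212 i (by omega)
      | exact EE_131 i (by omega)
      | exact EE_3011 i (by omega)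
      | exact EE_3101 i (by omega)
      | exact EE_211 i (by omega)
      | exact EE_121 i (by omega)
      | exact EE_221 i (by omega)
      | exact EE_122 i (by omega)
      | exact EE_2201 i (by omega)
      | exact EE_1301 i (by omega)
      | exact EE_2021 i (by omega)

theorem EE4 {i x j y k w l t : ℕ} (h0 : i < j) (h0' : j < k) (h0'' : k < l) (h1 : 1 ≤ x)
    (h2 : i + x ≤ m) (h3 : 1 ≤ y) (h4 : j + y ≤ m) (h5 : 1 ≤ w) (h6 : k + w ≤ m) (h7 : 1 ≤ t)
    (h8 : l + t ≤ m) (hs : x + y + w + t ≤ 5) :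
    EE (vb m [(i, x), (j, y), (k, w), (l, t)]) := by
  by_cases c1 : i + x < j
  · refine EE_append j [(i, x)] [(j, y), (k, w), (l, t)] (srt1.2 ⟨h1, h2⟩)
      (srt3.2 ⟨h0', h0'', h3, h4, h5, h6, h7, h8⟩) ?_ ?_ (EE1 h1 h2)
      (EE3 h0' h0'' h3 h4 h5 h6 h7 h8 (by omega))
    · intro b hb
      simp only [List.mem_cons, List.not_mem_nil, or_false] at hb
      subst hb
      exact c1
    · intro b hb
      simp only [List.mem_cons, List.not_mem_nil, or_false] at hb
      rcases hb with rfl | rfl | rfl <;> simp only <;> omega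
  by_cases c2 : i + x < k ∧ j + y < k
  · refine EE_append k [(i, x), (j, y)] [(k, w), (l, t)] (srt2.2 ⟨h0, h1, h2, h3, h4⟩)
      (srt2.2 ⟨h0'', h5, h6, h7, h8⟩) ?_ ?_ (EE2 h0 h1 h2 h3 h4 (by omega))
      (EE2 h0'' h5 h6 h7 h8 (by omega))
    · intro b hb
      simp only [List.mem_cons, List.not_mem_nil, or_false] at hb
      rcases hb with rfl | rfl
      · exact c2.1
      · exact c2.2
    · intro b hb
      simp only [List.mem_cons, List.not_mem_nil, or_false] at hb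
      rcases hb with rfl | rfl <;> simp only <;> omega
  by_cases c3 : i + x < l ∧ j + y < l ∧ k + w < l
  · refine EE_append l [(i, x), (j, y), (k, w)] [(l, t)]
      (srt3.2 ⟨h0, h0', h1, h2, h3, h4, h5, h6⟩) (srt1.2 ⟨h7, h8⟩) ?_ ?_
      (EE3 h0 h0' h1 h2 h3 h4 h5 h6 (by omega)) (EE1 h7 h8)
    · intro b hb
      simp only [List.mem_cons, List.not_mem_nil, or_false] at hb
      rcases hb with rfl | rfl | rfl
      · exact c3.1
      · exact c3.2.1
      · exact c3.2.2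
    · intro b hb
      simp only [List.mem_cons, List.not_mem_nil, or_false] at hb
      subst hb
      exact le_rfl
  by_cases c4 : i + x ≤ j ∧ j + y ≤ k ∧ k + w ≤ l
  · exact EE_good _ ⟨h1, c4.1, h3, c4.2.1, h5, c4.2.2, h7, h8⟩
  obtain ⟨p, rfl⟩ : ∃ p, j = i + p := ⟨j - i, by omega⟩
  obtain ⟨r, rfl⟩ : ∃ r, k = i + r := ⟨k - i, by omega⟩
  obtain ⟨s, rfl⟩ : ∃ s, l = i + s := ⟨l - i, by omega⟩
  have hx : x ≤ 2 := by omega
  have hy : y ≤ 2 := by omega
  have hw : w ≤ 2 := by omega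
  have ht : t ≤ 2 := by omega
  interval_cases x <;> interval_cases y <;> interval_cases w <;> interval_cases t <;> first
    | omega
    | (obtain rfl : p = 1 := by omega
       obtain rfl : r = 2 := by omega
       obtain rfl : s = 3 := by omega
       first
        | exact EE_1121 i (by omega)
        | exact EE_1211 i (by omega)
        | exact EE_2111 i (by omega))

theorem EE_srt (L : List (ℕ × ℕ)) (hL : Srt m L) (hs : (L.map Prod.snd).sum ≤ 5) :
    EE (vb m L) := by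
  match L, hL, hs with
  | [], _, _ => exact EE_good _ trivial
  | [(i, x)], hL, _ =>
    rw [srt1] at hL
    exact EE1 hL.1 hL.2
  | [(i, x), (j, y)], hL, hs =>
    rw [srt2] at hL
    simp only [List.map_cons, List.map_nil, List.sum_cons, List.sum_nil] at hs
    obtain ⟨a1, a2, a3, a4, a5⟩ := hL
    exact EE2 a1 a2 a3 a4 a5 (by omega)
  | [(i, x), (j, y), (k, w)], hL, hs =>
    rw [srt3] at hL
    simp only [List.map_cons, List.map_nil, List.sum_cons, List.sum_nil] at hs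
    obtain ⟨a1, a2, a3, a4, a5, a6, a7, a8⟩ := hL
    exact EE3 a1 a2 a3 a4 a5 a6 a7 a8 (by omega)
  | [(i, x), (j, y), (k, w), (l, t)], hL, hs =>
    rw [srt4] at hL
    simp only [List.map_cons, List.map_nil, List.sum_cons, List.sum_nil] at hs
    obtain ⟨a1, a2, a3, a4, a5, a6, a7, a8, a9, a10, a11⟩ := hL
    exact EE4 a1 a2 a3 a4 a5 a6 a7 a8 a9 a10 a11 (by omega)
  | (i, x) :: (j, y) :: (k, w) :: (l, t) :: (n, r) :: M, hL, hs =>
    obtain ⟨h1, h2⟩ := hL
    have b1 := h2 (i, x) (by simp)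
    have b2 := h2 (j, y) (by simp)
    have b3 := h2 (k, w) (by simp)
    have b4 := h2 (l, t) (by simp)
    have b5 := h2 (n, r) (by simp)
    simp only [List.map_cons, List.sum_cons] at hs b1 b2 b3 b4 b5
    have hM : M = [] := by
      cases M with
      | nil => rfl
      | cons c M =>
        have b6 := h2 c (by simp)
        simp only [List.map_cons, List.sum_cons] at hs
        omega
    subst hM
    simp only [List.pairwise_cons, List.mem_cons, List.not_mem_nil, or_false] at h1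
    have c1 := h1.1 (j, y) (by simp)
    have c2 := h1.2.1 (k, w) (by simp)
    have c3 := h1.2.2.1 (l, t) (by simp)
    have c4 := h1.2.2.2.1 (n, r) (by simp)
    simp only [List.map_nil, List.sum_nil] at hs c1 c2 c3 c4
    refine EE_good _ ⟨b1.1, ?_, b2.1, ?_, b3.1, ?_, b4.1, ?_, b5.1, b5.2⟩ <;> simp only <;> omega

/-- **All permutations of length at most five.** -/
theorem EE_five (v : WG m) (hv : inv v ≤ 5) : EE v := by
  obtain ⟨L, hL, rfl, hs⟩ := exists_srt v
  exact EE_srt L hL (hs.trans hv)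

end H50R
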