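import Pool.Agent.Helper50.CSB.Q0

/-!
# The degree of the coefficients
-/

namespace H50R

open H45C Equiv MvPolynomial

variable {m : ℕ}

theorem dd_addH (l : List (Fin m)) (f g : Pol m) : dd l (f + g) = dd l f + dd l g := by
  have h1 : dd l (f + g - g) = dd l (f + g) - dd l g := dd_sub _ _ _
  rw [add_sub_cancel_right] at h1
  rw [h1]
  ring

theorem dd_sumH {ι : Type*} (l : List (Fin m)) (s : Finset ι) (f : ι → Pol m) :
    dd l (∑ i ∈ s, f i) = ∑ i ∈ s, dd l (f i) := by
  classical
  induction s using Finset.induction_on with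
  | empty => rw [Finset.sum_empty, Finset.sum_empty, dd_zero]
  | insert i s hi ih => rw [Finset.sum_insert hi, Finset.sum_insert hi, dd_addH, ih]

theorem cc_dd_hc (l : List (Fin m)) (P : Pol m) :
    constantCoeff (dd l (homogeneousComponent l.length P)) = constantCoeff (dd l P) := by
  have h1 : constantCoeff (dd l P) = ∑ i ∈ Finset.range (P.totalDegree + 1),
      constantCoeff (dd l (homogeneousComponent i P)) := by
    rw [← map_sum, ← dd_sumH, sum_homogeneousComponent]
  rw [h1]
  by_cases h : l.length ∈ Finset.range (P.totalDegree + 1)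
  · rw [Finset.sum_eq_single l.length]
    · intro i _ hi
      exact constantCoeff_dd_of_ne l _ i (homogeneousComponent_isHomogeneous i P) hi.symm
    · intro h'
      exact absurd h h'
  · rw [Finset.mem_range, not_lt] at h
    rw [homogeneousComponent_eq_zero _ _ (by omega), dd_zero, map_zero]
    symm
    refine Finset.sum_eq_zero fun i hi => ?_
    rw [Finset.mem_range] at hi
    exact constantCoeff_dd_of_ne l _ i (homogeneousComponent_isHomogeneous i P) (by omega)

theorem isSchub_hc (v : WG m) (P : Pol m) (hP : IsSchub v P) :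
    IsSchub v (homogeneousComponent (inv v) P) := by
  intro l
  by_cases h : l.length = inv v
  · rw [← hP l, ← h, cc_dd_hc]
  · rw [if_neg fun h' => h h'.2]
    exact constantCoeff_dd_of_ne l _ _ (homogeneousComponent_isHomogeneous _ P) h

theorem inv_w0_mul (w : WG m) : inv (w0 m * w) + inv w = inv (w0 m) := by
  have h0 : ∀ a b : Fin (m + 1), w0 m a < w0 m b ↔ b < a := by
    intro a b
    simp [w0]
  unfold inv
  rw [← Finset.card_union_of_disjoint]
  · congr 1
    ext p
    simp only [Finset.mem_union, Finset.mem_filter, Finset.mem_univ, true_and, Perm.mul_apply, h0]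
    constructor
    · rintro (⟨h1, _⟩ | ⟨h1, _⟩)
      · exact ⟨h1, h1⟩
      · exact ⟨h1, h1⟩
    · rintro ⟨h1, _⟩
      rcases lt_or_gt_of_ne (fun h => h1.ne (w.injective h) : w p.1 ≠ w p.2) with h2 | h2
      · exact Or.inl ⟨h1, h2⟩
      · exact Or.inr ⟨h1, h2⟩
  · rw [Finset.disjoint_filter]
    intro p _ h1 h2
    rw [Perm.mul_apply, Perm.mul_apply, h0] at h1
    exact lt_asymm h1.2 h2.2

/-- the coefficients -/
noncomputable def co (P : Pol m) (u w : WG m) : ℤ := act m P (bas (u⁻¹ * w0 m)) (w⁻¹ * w0 m)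

theorem w0_inv' : (w0 m)⁻¹ = w0 m := inv_eq_of_mul_eq_one_right (w0_mul_w0 (m := m))

theorem co_sum (P : Pol m) (C : WG m → Coh m) (hC : IsCSM C) (u : WG m) :
    cl P * C u = ∑ w, (co P u w : Coh m) * C w := by
  have h1 : Phi C (bas (u⁻¹ * w0 m)) = C u := by
    rw [Phi_bas]
    congr 1
    rw [mul_inv_rev, inv_inv, ← mul_assoc, w0_inv', w0_mul_w0, one_mul]
  rw [← h1, ← Phi_act C hC]
  unfold co
  set z := act m P (bas (u⁻¹ * w0 m)) with hz
  have h5 : Phi C z = ∑ x, z x • C (w0 m * x⁻¹) := by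
    rw [Phi, Finsupp.linearCombination_apply, Finsupp.sum_fintype]
    intro i
    simp
  rw [h5]
  let e : WG m ≃ WG m := ⟨fun w => w⁻¹ * w0 m, fun x => w0 m * x⁻¹, fun w => by
    simp [mul_assoc, w0_inv', w0_mul_w0]
    rw [← mul_assoc, w0_mul_w0, one_mul], fun x => by
    simp [w0_inv', mul_assoc, w0_mul_w0]⟩
  rw [← Equiv.sum_comp e]
  apply Finset.sum_congr rfl
  intro w _
  have h6 : w0 m * (e w)⁻¹ = w := e.left_inv w
  rw [h6, zsmul_eq_mul]
  rfl

theorem co_eq (v : WG m) (P Q : Pol m) (hP : IsSchub v P) (hQ : IsSchub v Q) (u w : WG m) :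
    co P u w = co Q u w := by
  unfold co
  rw [act_eq_of_isSchub v P Q hP hQ]

theorem co_nonneg (v : WG m) (P : Pol m) (hP : IsSchub v P) (h : EE v) (u w : WG m) :
    0 ≤ co P u w := by
  obtain ⟨Q, hQ, hPP⟩ := h
  rw [co_eq v P Q hP hQ]
  exact hPP _ _

/-- a nonzero coefficient has `l(u) + l(v) ≤ l(w)` -/
theorem co_degree (v : WG m) (P : Pol m) (hP : IsSchub v P) (u w : WG m) (h : co P u w ≠ 0) :
    inv u + inv v ≤ inv w := by
  rw [co_eq v P _ hP (isSchub_hc v P hP)] at h
  have h1 := act_degree _ (inv v) (homogeneousComponent_isHomogeneous (inv v) P) _ _ h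
  rw [mul_inv_rev, mul_inv_rev, inv_inv, inv_inv, w0_inv'] at h1
  have h2 := inv_w0_mul u
  have h3 := inv_w0_mul w
  omega

end H50R
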