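import Pool.Agent.Helper50.CSB.Q6
import Pool.Agent.Helper50.CSB.Q7
import Pool.Agent.Helper48.CSB.Q9b

/-!
# Length at most five: the main theorem
-/

namespace H50R

open H45C Equiv MvPolynomial

variable {m : ℕ}

theorem EE_mul (k : ℕ) (u w : WG m) (hu : ∀ x : Fin (m + 1), k ≤ (x : ℕ) → u x = x)
    (hw : ∀ x : Fin (m + 1), (x : ℕ) < k → w x = x) (e1 : EE u) (e2 : EE w) : EE (u * w) := by
  obtain ⟨P, hP, hP2⟩ := e1
  obtain ⟨Q, hQ, hQ2⟩ := e2
  exact ⟨P * Q, c2_mul k _ u w hu hw rfl P Q hP hQ, hP2.mul hQ2⟩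

theorem EE_one : EE (1 : WG m) := by
  have := EE_good (m := m) [] trivial
  simpa [vb] using this

/-- the classes of `v` with a positive representative -/
theorem main_gen (m : ℕ) (S : WG m → Prop) (hS : ∀ v, S v → EE v) :
    ∃ C : WG m → Coh m, IsCSM C ∧ (∀ C', IsCSM C' → C' = C) ∧
      LinearIndependent ℤ C ∧ Submodule.span ℤ (Set.range C) = ⊤ ∧
      ∃ Y : WG m → Coh m, (∀ v : WG m, ∃ P : Pol m, IsSchub v P) ∧
        (∀ (v : WG m) (P : Pol m), IsSchub v P → Y v = cl P) ∧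
        ∃ a : WG m → WG m → WG m → ℤ,
          (∀ u v : WG m, Y v * C u = ∑ w, (a u v w : Coh m) * C w) ∧
          ∀ u v w : WG m, (inv v ≤ 5 ∨ inv w ≤ inv u + 5 ∨ S v) → 0 ≤ a u v w := by
  obtain ⟨C, hC⟩ := exists_isCSM m
  have hP : ∀ v : WG m, IsSchub v (exists_isSchub v).choose := fun v =>
    (exists_isSchub v).choose_spec
  refine ⟨C, hC, fun C' hC' => isCSM_unique C' C hC' hC, linearIndependent_of_isCSM C hC,
    span_of_isCSM C hC, fun v => cl (exists_isSchub v).choose, exists_isSchub, ?_,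
    fun u v w => co (exists_isSchub v).choose u w, ?_, ?_⟩
  · intro v P hPv
    exact cl_eq_of_isSchub v _ P (hP v) hPv
  · intro u v
    exact co_sum _ C hC u
  · intro u v w h
    rcases h with h | h | h
    · exact co_nonneg v _ (hP v) (EE_five v h) u w
    · by_cases h0 : co (exists_isSchub v).choose u w = 0
      · exact h0.ge
      · have h1 := co_degree v _ (hP v) u w h0
        exact co_nonneg v _ (hP v) (EE_five v (by omega)) u w
    · exact co_nonneg v _ (hP v) (hS v h) u w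

/-- two-row codes -/
theorem EE_rows (v : WG m) (h : ∃ i j : Fin (m + 1), i < j ∧
    (∀ k, k ≠ i → k ≠ j → code v k = 0) ∧
    (code v i ≤ (j : ℕ) - i + 1 ∨ code v j ≤ 2 ∨
      ((j : ℕ) = i + 1 ∧ (code v i ≤ 4 ∨ code v j ≤ 3)))) : EE v := by
  obtain ⟨i, j, hij, hv, h | h | ⟨h1, h2⟩⟩ := h
  · exact EE_code v i j hij hv (Or.inl h)
  · exact EE_code v i j hij hv (Or.inr h)
  · exact EE_code_adj v i j h1 hv h2

theorem main5 (m : ℕ) :
    ∃ C : WG m → Coh m, IsCSM C ∧ (∀ C', IsCSM C' → C' = C) ∧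
      LinearIndependent ℤ C ∧ Submodule.span ℤ (Set.range C) = ⊤ ∧
      ∃ Y : WG m → Coh m, (∀ v : WG m, ∃ P : Pol m, IsSchub v P) ∧
        (∀ (v : WG m) (P : Pol m), IsSchub v P → Y v = cl P) ∧
        ∃ a : WG m → WG m → WG m → ℤ,
          (∀ u v : WG m, Y v * C u = ∑ w, (a u v w : Coh m) * C w) ∧
          ∀ u v w : WG m,
            (inv v ≤ 5 ∨ inv w ≤ inv u + 5 ∨
              (∃ i j : Fin (m + 1), i < j ∧ (∀ k, k ≠ i → k ≠ j → code v k = 0) ∧
                (code v i ≤ (j : ℕ) - i + 1 ∨ code v j ≤ 2 ∨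
                  ((j : ℕ) = i + 1 ∧ (code v i ≤ 4 ∨ code v j ≤ 3)))) ∨
              (∃ i j : Fin (m + 1), i < j ∧
                (∀ k, k ≠ i → k ≠ j → code (w0 m * v * w0 m) k = 0) ∧
                (code (w0 m * v * w0 m) i ≤ (j : ℕ) - i + 1 ∨ code (w0 m * v * w0 m) j ≤ 2 ∨
                  ((j : ℕ) = i + 1 ∧
                    (code (w0 m * v * w0 m) i ≤ 4 ∨ code (w0 m * v * w0 m) j ≤ 3))))) →
            0 ≤ a u v w :=
  main_gen m _ fun v h => h.elim (EE_rows v) fun h => EE_dual v (EE_rows _ h)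

end H50R
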