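import Pool.Agent.Helper50.CSB.Defs

/-!
# Ribbons of sweeps on words: the basic recursion
-/

namespace H50R

open H45C Equiv

variable {α : Type*} [DecidableEq α]

theorem WS_induction {X : Finset α} {p : Wd α → Prop} {z : Wd α} (hz : z ∈ WS X)
    (hw : ∀ u : List α, u.Nodup → u.toFinset = X → p (wd u)) (h0 : p 0)
    (hadd : ∀ y z, p y → p z → p (y + z)) (hs : ∀ (a : ℤ) z, p z → p (a • z)) : p z := by
  unfold WS at hz
  induction hz using Submodule.span_induction with
  | mem x hx =>
    obtain ⟨u, ⟨h1, h2⟩, rfl⟩ := hx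
    exact hw u h1 h2
  | zero => exact h0
  | add x y _ _ hx hy => exact hadd x y hx hy
  | smul a x _ hx => exact hs a x hx

theorem wd_mem {X : Finset α} (u : List α) (hu : u.Nodup) (hX : u.toFinset = X) : wd u ∈ WS X :=
  Submodule.subset_span ⟨u, ⟨hu, hX⟩, rfl⟩

theorem cns_mem {X : Finset α} {q : α} (hq : q ∉ X) {z : Wd α} (hz : z ∈ WS X) :
    cns q z ∈ WS (insert q X) := by
  refine WS_induction (p := fun z => cns q z ∈ WS (insert q X)) hz ?_ ?_ ?_ ?_
  · intro u hu hX
    rw [cns_wd]
    refine wd_mem _ (List.nodup_cons.2 ⟨fun h => hq ?_, hu⟩) ?_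
    · rw [← hX]
      exact List.mem_toFinset.2 h
    · rw [List.toFinset_cons, hX]
  · rw [map_zero]
    exact Submodule.zero_mem _
  · intro y z hy hz
    rw [map_add]
    exact Submodule.add_mem _ hy hz
  · intro a z hz
    rw [map_smul]
    exact Submodule.smul_mem _ a hz

theorem Hop_mem {X : Finset α} (S : Finset α) (k : ℤ) {z : Wd α} (hz : z ∈ WS X) :
    Hop S k z ∈ WS X := by
  refine WS_induction (p := fun z => Hop S k z ∈ WS X) hz ?_ ?_ ?_ ?_
  · intro u hu hX
    rw [Hop_wd, ← hX]
    exact hop_mem S u hu k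
  · rw [map_zero]
    exact Submodule.zero_mem _
  · intro y z hy hz
    rw [map_add]
    exact Submodule.add_mem _ hy hz
  · intro a z hz
    rw [map_smul]
    exact Submodule.smul_mem _ a hz

theorem swap_mem {X : Finset α} {q D : α} (hq : q ∉ X) (hD : D ∈ X) {z : Wd α} (hz : z ∈ WS X) :
    rl (swap D q) z ∈ WS ((insert q X).erase D) := by
  refine WS_induction (p := fun z => rl (swap D q) z ∈ WS ((insert q X).erase D)) hz ?_ ?_ ?_ ?_
  · intro u hu hX
    rw [rl_wd]
    refine wd_mem _ (hu.map (swap D q).injective) ?_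
    ext y
    simp only [Finset.mem_erase, Finset.mem_insert, List.mem_toFinset, List.mem_map]
    constructor
    · rintro ⟨x, hx, rfl⟩
      have hxX : x ∈ X := hX ▸ List.mem_toFinset.2 hx
      have hxq : x ≠ q := fun h => hq (h ▸ hxX)
      rcases eq_or_ne x D with rfl | hxD
      · rw [swap_apply_left]
        exact ⟨hxq.symm, Or.inl rfl⟩
      · rw [swap_apply_of_ne_of_ne hxD hxq]
        exact ⟨hxD, Or.inr hxX⟩
    · rintro ⟨h1, rfl | hy⟩
      · refine ⟨D, List.mem_toFinset.1 (hX.symm ▸ hD), swap_apply_left _ _⟩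
      · have hyq : y ≠ q := fun h => hq (h ▸ hy)
        exact ⟨y, List.mem_toFinset.1 (hX.symm ▸ hy), swap_apply_of_ne_of_ne h1 hyq⟩
  · rw [map_zero]
    exact Submodule.zero_mem _
  · intro y z hy hz
    rw [map_add]
    exact Submodule.add_mem _ hy hz
  · intro a z hz
    rw [map_smul]
    exact Submodule.smul_mem _ a hz

theorem Hop_congr {X : Finset α} {S S' : Finset α} (h : ∀ x ∈ X, x ∈ S ↔ x ∈ S') (k : ℤ)
    {z : Wd α} (hz : z ∈ WS X) : Hop S k z = Hop S' k z := by
  refine WS_induction (p := fun z => Hop S k z = Hop S' k z) hz ?_ ?_ ?_ ?_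
  · intro u _ hX
    rw [Hop_wd, Hop_wd]
    refine hop_congr S S' u k fun x hx => h x ?_
    rw [← hX]
    exact List.mem_toFinset.2 hx
  · rw [map_zero, map_zero]
  · intro y z hy hz
    rw [map_add, map_add, hy, hz]
  · intro a z hz
    rw [map_smul, map_smul, hz]

theorem Hop_neg (S : Finset α) {k : ℤ} (hk : k < 0) : Hop S k = 0 := by
  apply ext_wd
  intro u
  rw [Hop_wd, hop_neg S u k hk, LinearMap.zero_apply]

theorem Hop_zero (S : Finset α) : Hop S 0 = (1 : Module.End ℤ (Wd α)) := by
  apply ext_wd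
  intro u
  rw [Hop_wd]
  show hop S u 0 = wd u
  induction u with
  | nil => rw [hop_nil, if_pos rfl]
  | cons q u ih =>
    rw [hop_cons, ih, cns_wd]
    have h : (if q ∈ S then ∑ D ∈ u.toFinset \ S, cns D (hop S (u.map (swap D q)) (0 - 1))
        else 0 : Wd α) = 0 := by
      split_ifs
      · refine Finset.sum_eq_zero fun D _ => ?_
        rw [hop_neg _ _ _ (by norm_num), map_zero]
      · rfl
    rw [h, add_zero]

theorem rib_mem (n : ℕ) : ∀ (L : List (Bl α)), L.length = n → ∀ {X : Finset α} {z : Wd α},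
    z ∈ WS X → rib L z ∈ WS X := by
  induction n using Nat.strong_induction_on with
  | _ n ih =>
    intro L hn X z hz
    match L, hn with
    | [], _ => rw [rib_nil]; exact hz
    | [b], _ => rw [rib_single]; exact Hop_mem _ _ hz
    | b :: c :: L, hn =>
      rw [rib_cons]
      refine Submodule.sub_mem _ ?_ ?_
      · exact Hop_mem _ _ (ih (c :: L).length (by subst hn; simp) _ rfl hz)
      · exact ih ((b.1, b.2 + c.2) :: L).length (by subst hn; simp) _ rfl hz

theorem rib_mem' (L : List (Bl α)) {X : Finset α} {z : Wd α} (hz : z ∈ WS X) : rib L z ∈ WS X :=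
  rib_mem _ L rfl hz

/-- the relabelled list -/
def mapL (g : Perm α) (L : List (Bl α)) : List (Bl α) :=
  L.map fun b => (b.1.map g.toEmbedding, b.2)

theorem rl_rib (g : Perm α) (n : ℕ) : ∀ (L : List (Bl α)), L.length = n → ∀ z : Wd α,
    rl g (rib L z) = rib (mapL g L) (rl g z) := by
  induction n using Nat.strong_induction_on with
  | _ n ih =>
    intro L hn z
    match L, hn with
    | [], _ => simp only [mapL, List.map_nil, rib_nil]; rfl
    | [b], _ =>
      simp only [mapL, List.map_cons, List.map_nil, rib_single]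
      exact rl_Hop g b.1 b.2 z
    | b :: c :: L, hn =>
      have h1 := ih (c :: L).length (by subst hn; simp) _ rfl z
      have h2 := ih ((b.1, b.2 + c.2) :: L).length (by subst hn; simp) _ rfl z
      simp only [mapL, List.map_cons] at h1 h2 ⊢
      rw [rib_cons, rib_cons, LinearMap.sub_apply, LinearMap.sub_apply, Module.End.mul_apply,
        Module.End.mul_apply, map_sub, rl_Hop, h1, h2]

/-- the same amounts, and the same sets on `X` -/
def Cg (X : Finset α) (L L' : List (Bl α)) : Prop :=
  List.Forall₂ (fun b c : Bl α => (∀ x ∈ X, x ∈ b.1 ↔ x ∈ c.1) ∧ b.2 = c.2) L L'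

theorem rib_congr (X : Finset α) (n : ℕ) : ∀ (L L' : List (Bl α)), L.length = n → Cg X L L' →
    ∀ {z : Wd α}, z ∈ WS X → rib L z = rib L' z := by
  induction n using Nat.strong_induction_on with
  | _ n ih =>
    intro L L' hn h z hz
    match L, L', h, hn with
    | [], [], _, _ => rfl
    | [b], [b'], h, _ =>
      have h1 := (List.forall₂_cons.1 h).1
      rw [rib_single, rib_single, h1.2]
      exact Hop_congr h1.1 _ hz
    | b :: c :: L, b' :: c' :: L', h, hn =>
      obtain ⟨h1, h2⟩ := List.forall₂_cons.1 h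
      obtain ⟨h3, h4⟩ := List.forall₂_cons.1 h2
      have e1 := ih (c :: L).length (by subst hn; simp) (c :: L) (c' :: L') rfl h2 hz
      have e2 := ih ((b.1, b.2 + c.2) :: L).length (by subst hn; simp) _
        ((b'.1, b'.2 + c'.2) :: L') rfl
        (List.forall₂_cons.2 ⟨⟨h1.1, by rw [h1.2, h3.2]⟩, h4⟩) hz
      rw [rib_cons, rib_cons, LinearMap.sub_apply, LinearMap.sub_apply, Module.End.mul_apply,
        Module.End.mul_apply, e1, e2, h1.2]
      rw [Hop_congr h1.1 _ (rib_mem' _ hz)]

/-- the set after the exchange of `q` and `D` -/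
def st (q D : α) (A : Finset α) : Finset α := if D ∈ A then A else A.erase q

/-- the list after the exchange -/
def stL (q D : α) (L : List (Bl α)) : List (Bl α) := L.map fun b => (st q D b.1, b.2)

theorem stL_cons (q D : α) (b : Bl α) (L : List (Bl α)) :
    stL q D (b :: L) = (st q D b.1, b.2) :: stL q D L := rfl

theorem star {X : Finset α} {q D : α} (hq : q ∉ X) (hD : D ∈ X) (L : List (Bl α))
    (hL : ∀ b ∈ L, q ∈ b.1) {z : Wd α} (hz : z ∈ WS X) :
    rl (swap D q) (rib L z) = rib (stL q D L) (rl (swap D q) z) := by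
  rw [rl_rib _ _ L rfl]
  refine rib_congr ((insert q X).erase D) _ _ _ rfl ?_ (swap_mem hq hD hz)
  induction L with
  | nil => exact List.Forall₂.nil
  | cons b L ih =>
    refine List.forall₂_cons.2 ⟨⟨?_, rfl⟩, ih fun c hc => hL c (List.mem_cons_of_mem _ hc)⟩
    have hqb : q ∈ b.1 := hL b List.mem_cons_self
    intro x hx
    rw [Finset.mem_erase, Finset.mem_insert] at hx
    have h1 : x ∈ b.1.map (swap D q).toEmbedding ↔ swap D q x ∈ b.1 := by
      rw [Finset.mem_map_equiv, symm_swap]
    show x ∈ b.1.map (swap D q).toEmbedding ↔ x ∈ st q D b.1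
    rw [h1]
    unfold st
    have hqD : q ≠ D := fun h => hq (h ▸ hD)
    by_cases hxq : x = q
    · subst hxq
      rw [swap_apply_right]
      by_cases h2 : D ∈ b.1
      · rw [if_pos h2]
        exact ⟨fun _ => hqb, fun _ => h2⟩
      · rw [if_neg h2]
        exact ⟨fun h => absurd h h2, fun h => absurd h (Finset.notMem_erase _ _)⟩
    · rw [swap_apply_of_ne_of_ne hx.1 hxq]
      split_ifs
      · exact Iff.rfl
      · rw [Finset.mem_erase]
        exact ⟨fun h => ⟨hxq, h⟩, fun h => h.2⟩

/-- the operator with which `D` becomes the last letter instead of `q` -/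
noncomputable def kap (q D : α) : List (Bl α) → Module.End ℤ (Wd α)
  | [] => 0
  | [b] => if q ∈ b.1 ∧ D ∉ b.1 then Hop b.1 (b.2 - 1) else 0
  | b :: c :: L => (if q ∈ b.1 ∧ D ∉ b.1 then
      Hop b.1 (b.2 - 1) * rib (stL q D (c :: L)) else 0) +
      Hop b.1 b.2 * kap q D (c :: L) - kap q D ((b.1, b.2 + c.2) :: L)
termination_by L => L.length

theorem kap_nil (q D : α) : kap q D [] = 0 := by rw [kap]

theorem kap_single (q D : α) (b : Bl α) :
    kap q D [b] = if q ∈ b.1 ∧ D ∉ b.1 then Hop b.1 (b.2 - 1) else 0 := by rw [kap]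

theorem kap_cons (q D : α) (b c : Bl α) (L : List (Bl α)) :
    kap q D (b :: c :: L) = (if q ∈ b.1 ∧ D ∉ b.1 then
      Hop b.1 (b.2 - 1) * rib (stL q D (c :: L)) else 0) +
      Hop b.1 b.2 * kap q D (c :: L) - kap q D ((b.1, b.2 + c.2) :: L) := by
  rw [kap]

/-- nested sets -/
def Nest (L : List (Bl α)) : Prop := L.Pairwise fun b c => b.1 ⊆ c.1

theorem Nest.tail {b : Bl α} {L : List (Bl α)} (h : Nest (b :: L)) : Nest L :=
  (List.pairwise_cons.1 h).2

theorem Nest.merge {b c : Bl α} {L : List (Bl α)} (h : Nest (b :: c :: L)) (x : ℤ) :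
    Nest ((b.1, x) :: L) := by
  refine List.pairwise_cons.2 ⟨fun d hd => ?_, h.tail.tail⟩
  exact (List.pairwise_cons.1 h).1 d (List.mem_cons_of_mem _ hd)

theorem Nest.change {b : Bl α} {L : List (Bl α)} (h : Nest (b :: L)) (x : ℤ) :
    Nest ((b.1, x) :: L) :=
  List.pairwise_cons.2 ⟨(List.pairwise_cons.1 h).1, h.tail⟩

theorem Nest.sub {b : Bl α} {L : List (Bl α)} (h : Nest (b :: L)) :
    ∀ c ∈ L, b.1 ⊆ c.1 := (List.pairwise_cons.1 h).1

theorem Nest.head_sub {b c : Bl α} {L : List (Bl α)} (h : Nest (b :: c :: L)) : b.1 ⊆ c.1 :=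
  h.sub c List.mem_cons_self

theorem Nest.mem {b : Bl α} {L : List (Bl α)} (h : Nest (b :: L)) {x : α} (hx : x ∈ b.1) :
    ∀ c ∈ b :: L, x ∈ c.1 := by
  intro c hc
  rcases List.mem_cons.1 hc with rfl | hc
  · exact hx
  · exact h.sub c hc hx

theorem kap_zero (q D : α) (n : ℕ) : ∀ (b : Bl α) (L : List (Bl α)), L.length = n →
    Nest (b :: L) → D ∈ b.1 → kap q D (b :: L) = 0 := by
  induction n with
  | zero =>
    intro b L hn _ hD
    rw [List.length_eq_zero_iff] at hn
    subst hn
    rw [kap_single, if_neg fun h => h.2 hD]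
  | succ n ih =>
    intro b L hn hL hD
    match L, hn with
    | c :: L, hn =>
      have hn' : L.length = n := by simpa using hn
      rw [kap_cons, if_neg fun h => h.2 hD, ih c L hn' hL.tail (hL.head_sub hD),
        ih (b.1, b.2 + c.2) L hn' (hL.merge _) hD, mul_zero, add_zero, sub_zero]

theorem kap_mem (q D : α) (n : ℕ) : ∀ (L : List (Bl α)), L.length = n →
    ∀ {X : Finset α} {z : Wd α}, z ∈ WS X → kap q D L z ∈ WS X := by
  induction n using Nat.strong_induction_on with
  | _ n ih =>
    intro L hn X z hz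
    match L, hn with
    | [], _ =>
      rw [kap_nil, LinearMap.zero_apply]
      exact Submodule.zero_mem _
    | [b], _ =>
      rw [kap_single]
      split_ifs
      · exact Hop_mem _ _ hz
      · rw [LinearMap.zero_apply]
        exact Submodule.zero_mem _
    | b :: c :: L, hn =>
      rw [kap_cons, LinearMap.sub_apply, LinearMap.add_apply]
      refine Submodule.sub_mem _ (Submodule.add_mem _ ?_ ?_) ?_
      · split_ifs
        · exact Hop_mem _ _ (rib_mem' _ hz)
        · rw [LinearMap.zero_apply]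
          exact Submodule.zero_mem _
      · exact Hop_mem _ _ (ih (c :: L).length (by subst hn; simp) _ rfl hz)
      · exact ih ((b.1, b.2 + c.2) :: L).length (by subst hn; simp) _ rfl hz

/-- **The recursion.** -/
theorem rib_cns {X : Finset α} {q : α} (hq : q ∉ X) (n : ℕ) : ∀ (L : List (Bl α)),
    L.length = n → Nest L → ∀ {z : Wd α}, z ∈ WS X →
    rib L (cns q z) = cns q (rib L z) + ∑ D ∈ X, cns D (kap q D L (rl (swap D q) z)) := by
  induction n using Nat.strong_induction_on with
  | _ n ih =>
    intro L hn hL z hz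
    match L, hn, hL with
    | [], _, _ =>
      simp only [rib_nil, kap_nil, LinearMap.zero_apply, map_zero, Finset.sum_const_zero, add_zero,
        Module.End.one_apply]
    | [b], _, _ =>
      simp only [rib_single, kap_single]
      rw [Hop_cns b.1 b.2 q X z hz]
      congr 1
      by_cases h : q ∈ b.1
      · rw [if_pos h, Finset.sdiff_eq_filter, Finset.sum_filter]
        refine Finset.sum_congr rfl fun D _ => ?_
        by_cases hD : D ∈ b.1
        · rw [if_neg (fun h' => h' hD), if_neg (fun h' => h'.2 hD), LinearMap.zero_apply, map_zero]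
        · rw [if_pos hD, if_pos ⟨h, hD⟩]
      · rw [if_neg h]
        symm
        refine Finset.sum_eq_zero fun D _ => ?_
        rw [if_neg (fun h' => h h'.1), LinearMap.zero_apply, map_zero]
    | b :: c :: L, hn, hL =>
      have h1 := ih (c :: L).length (by subst hn; simp) _ rfl hL.tail hz
      have h2 := ih ((b.1, b.2 + c.2) :: L).length (by subst hn; simp) _ rfl (hL.merge _) hz
      rw [rib_cons, LinearMap.sub_apply, LinearMap.sub_apply, Module.End.mul_apply,
        Module.End.mul_apply, h1, h2, map_add, map_sum, map_sub,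
        Hop_cns b.1 b.2 q X _ (rib_mem' (c :: L) hz)]
      have h3 : ∀ D ∈ X, Hop b.1 b.2 (cns D (kap q D (c :: L) (rl (swap D q) z))) =
          cns D (Hop b.1 b.2 (kap q D (c :: L) (rl (swap D q) z))) := by
        intro D hD
        by_cases hDb : D ∈ b.1
        · rw [kap_zero q D _ c L rfl hL.tail (hL.head_sub hDb)]
          simp only [LinearMap.zero_apply, map_zero]
        · rw [Hop_cns b.1 b.2 D ((insert q X).erase D) _
            (kap_mem q D _ (c :: L) rfl (swap_mem hq hD hz)), if_neg hDb, add_zero]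
      rw [Finset.sum_congr rfl h3]
      have h4 : (if q ∈ b.1 then ∑ D ∈ X \ b.1, cns D (Hop b.1 (b.2 - 1)
          (rl (swap D q) (rib (c :: L) z))) else 0 : Wd α) =
          ∑ D ∈ X, cns D ((if q ∈ b.1 ∧ D ∉ b.1 then
            Hop b.1 (b.2 - 1) * rib (stL q D (c :: L)) else 0 : Module.End ℤ (Wd α))
              (rl (swap D q) z)) := by
        by_cases h : q ∈ b.1
        · rw [if_pos h, Finset.sdiff_eq_filter, Finset.sum_filter]
          refine Finset.sum_congr rfl fun D hD => ?_
          by_cases hDb : D ∈ b.1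
          · rw [if_neg (fun h' => h' hDb), if_neg (fun h' => h'.2 hDb), LinearMap.zero_apply,
              map_zero]
          · rw [if_pos hDb, if_pos ⟨h, hDb⟩, Module.End.mul_apply,
              star hq hD (c :: L) (fun d hd => hL.mem h d (List.mem_cons_of_mem _ hd)) hz]
        · rw [if_neg h]
          symm
          refine Finset.sum_eq_zero fun D _ => ?_
          rw [if_neg (fun h' => h h'.1), LinearMap.zero_apply, map_zero]
      rw [h4]
      have h5 : ∀ D ∈ X, cns D (kap q D (b :: c :: L) (rl (swap D q) z)) =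
          cns D ((if q ∈ b.1 ∧ D ∉ b.1 then
            Hop b.1 (b.2 - 1) * rib (stL q D (c :: L)) else 0 : Module.End ℤ (Wd α))
              (rl (swap D q) z)) +
          cns D (Hop b.1 b.2 (kap q D (c :: L) (rl (swap D q) z))) -
          cns D (kap q D ((b.1, b.2 + c.2) :: L) (rl (swap D q) z)) := by
        intro D _
        rw [kap_cons, LinearMap.sub_apply, LinearMap.add_apply, Module.End.mul_apply, map_sub,
          map_add]
      rw [Finset.sum_congr rfl h5, Finset.sum_sub_distrib, Finset.sum_add_distrib]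
      abel

end H50R
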