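import Pool.Agent.Helper50.CSB.Rib1

/-!
# Ribbons of sweeps on words: the formulas for `kap`
-/

namespace H50R

open H45C Equiv

variable {α : Type*} [DecidableEq α]

/-- one jump less in the last block whose set does not contain `D` -/
def dec (D : α) : List (Bl α) → List (Bl α)
  | [] => []
  | [b] => [(b.1, b.2 - 1)]
  | b :: c :: L => if D ∈ c.1 then (b.1, b.2 - 1) :: c :: L else b :: dec D (c :: L)

/-- one jump less in the last block -/
def dl : List (Bl α) → List (Bl α)
  | [] => []
  | [b] => [(b.1, b.2 - 1)]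
  | b :: c :: L => b :: dl (c :: L)

noncomputable def Qa (q D : α) : List (Bl α) → List (Bl α) → Module.End ℤ (Wd α)
  | [], _ => 0
  | c :: S, P => if D ∈ c.1 then 0 else rib (dl P) * rib (stL q D (c :: S)) + Qa q D S (P ++ [c])

noncomputable def Qb (q D : α) : List (Bl α) → List (Bl α) → Module.End ℤ (Wd α)
  | [], _ => 0
  | c :: S, P => if D ∈ c.1 then 0 else if q ∈ c.1 then Qa q D S (P ++ [c]) else
      Qb q D S (P ++ [c])

def zl (q D : α) : List (Bl α) → List (Bl α)
  | [] => []
  | [b] => [b]
  | b :: c :: L => if q ∈ c.1 then (b.1, b.2 + c.2 - 1) :: stL q D L else b :: zl q D (c :: L)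

/-- some block contains `q` but not `D` (for nested lists) -/
def actv (q D : α) : List (Bl α) → Prop
  | [] => False
  | c :: S => if q ∈ c.1 then D ∉ c.1 else actv q D S

theorem dec_single (D : α) (b : Bl α) : dec D [b] = [(b.1, b.2 - 1)] := rfl

theorem dec_cons (D : α) (b c : Bl α) (L : List (Bl α)) : dec D (b :: c :: L) =
    if D ∈ c.1 then (b.1, b.2 - 1) :: c :: L else b :: dec D (c :: L) := rfl

theorem zl_cons (q D : α) (b c : Bl α) (L : List (Bl α)) : zl q D (b :: c :: L) =
    if q ∈ c.1 then (b.1, b.2 + c.2 - 1) :: stL q D L else b :: zl q D (c :: L) := rfl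

theorem Qa_cons (q D : α) (c : Bl α) (S P : List (Bl α)) : Qa q D (c :: S) P =
    if D ∈ c.1 then 0 else rib (dl P) * rib (stL q D (c :: S)) + Qa q D S (P ++ [c]) := rfl

theorem Qb_cons (q D : α) (c : Bl α) (S P : List (Bl α)) : Qb q D (c :: S) P =
    if D ∈ c.1 then 0 else if q ∈ c.1 then Qa q D S (P ++ [c]) else Qb q D S (P ++ [c]) := rfl

theorem actv_cons (q D : α) (c : Bl α) (S : List (Bl α)) : actv q D (c :: S) =
    if q ∈ c.1 then D ∉ c.1 else actv q D S := rfl

theorem dl_cons (b c : Bl α) (L : List (Bl α)) : dl (b :: c :: L) = b :: dl (c :: L) := rfl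

/-! ### merging -/

theorem merge_dl (b c : Bl α) (P : List (Bl α)) : rib (dl (b :: c :: P)) =
    Hop b.1 b.2 * rib (dl (c :: P)) - rib (dl ((b.1, b.2 + c.2) :: P)) := by
  cases P with
  | nil =>
    show rib (b :: [(c.1, c.2 - 1)]) = Hop b.1 b.2 * rib [(c.1, c.2 - 1)] -
      rib [(b.1, b.2 + c.2 - 1)]
    rw [rib_cons]
    show Hop b.1 b.2 * rib [(c.1, c.2 - 1)] - rib [(b.1, b.2 + (c.2 - 1))] = _
    rw [add_sub_assoc]
  | cons d P =>
    show rib (b :: c :: dl (d :: P)) = Hop b.1 b.2 * rib (c :: dl (d :: P)) -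
      rib ((b.1, b.2 + c.2) :: dl (d :: P))
    rw [rib_cons]

theorem merge_dec (D : α) (b c : Bl α) (L : List (Bl α)) : rib (b :: dec D (c :: L)) =
    Hop b.1 b.2 * rib (dec D (c :: L)) - rib (dec D ((b.1, b.2 + c.2) :: L)) := by
  cases L with
  | nil =>
    show rib (b :: [(c.1, c.2 - 1)]) = Hop b.1 b.2 * rib [(c.1, c.2 - 1)] -
      rib [(b.1, b.2 + c.2 - 1)]
    rw [rib_cons]
    show Hop b.1 b.2 * rib [(c.1, c.2 - 1)] - rib [(b.1, b.2 + (c.2 - 1))] = _
    rw [add_sub_assoc]
  | cons d P =>
    rw [dec_cons, dec_cons]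
    by_cases h : D ∈ d.1
    · rw [if_pos h, if_pos h, rib_cons]
      show Hop b.1 b.2 * rib ((c.1, c.2 - 1) :: d :: P) - rib ((b.1, b.2 + (c.2 - 1)) :: d :: P) =
        Hop b.1 b.2 * rib ((c.1, c.2 - 1) :: d :: P) - rib ((b.1, b.2 + c.2 - 1) :: d :: P)
      rw [add_sub_assoc]
    · rw [if_neg h, if_neg h, rib_cons]

theorem merge_Qa (q D : α) (S : List (Bl α)) : ∀ (b c : Bl α) (P : List (Bl α)),
    Qa q D S (b :: c :: P) =
      Hop b.1 b.2 * Qa q D S (c :: P) - Qa q D S ((b.1, b.2 + c.2) :: P) := by
  induction S with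
  | nil =>
    intro b c P
    simp only [Qa, mul_zero, sub_zero]
  | cons d S ih =>
    intro b c P
    rw [Qa_cons, Qa_cons, Qa_cons]
    by_cases h : D ∈ d.1
    · rw [if_pos h, if_pos h, if_pos h, mul_zero, sub_zero]
    · rw [if_neg h, if_neg h, if_neg h, merge_dl, List.cons_append, List.cons_append,
        List.cons_append, ih]
      simp only [mul_add, sub_mul, mul_assoc]
      abel

theorem merge_Qb (q D : α) (S : List (Bl α)) : ∀ (b c : Bl α) (P : List (Bl α)),
    Qb q D S (b :: c :: P) =
      Hop b.1 b.2 * Qb q D S (c :: P) - Qb q D S ((b.1, b.2 + c.2) :: P) := by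
  induction S with
  | nil =>
    intro b c P
    simp only [Qb, mul_zero, sub_zero]
  | cons d S ih =>
    intro b c P
    rw [Qb_cons, Qb_cons, Qb_cons]
    by_cases h : D ∈ d.1
    · rw [if_pos h, if_pos h, if_pos h, mul_zero, sub_zero]
    · rw [if_neg h, if_neg h, if_neg h]
      by_cases hq : q ∈ d.1
      · rw [if_pos hq, if_pos hq, if_pos hq, List.cons_append, List.cons_append,
          List.cons_append, merge_Qa]
      · rw [if_neg hq, if_neg hq, if_neg hq, List.cons_append, List.cons_append,
          List.cons_append, ih]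

/-! ### lists all of whose sets contain `D` -/

theorem stL_eq (q D : α) (L : List (Bl α)) (h : ∀ c ∈ L, D ∈ c.1) : stL q D L = L := by
  unfold stL
  have : ∀ c ∈ L, ((st q D c.1, c.2) : Bl α) = c := by
    intro c hc
    unfold st
    rw [if_pos (h c hc)]
  conv_rhs => rw [← List.map_id L]
  exact List.map_congr_left this

theorem Qa_eq_zero (q D : α) (L P : List (Bl α)) (h : ∀ c ∈ L, D ∈ c.1) : Qa q D L P = 0 := by
  cases L with
  | nil => rfl
  | cons c L => rw [Qa_cons, if_pos (h c List.mem_cons_self)]

theorem Qb_eq_zero (q D : α) (L P : List (Bl α)) (h : ∀ c ∈ L, D ∈ c.1) : Qb q D L P = 0 := by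
  cases L with
  | nil => rfl
  | cons c L => rw [Qb_cons, if_pos (h c List.mem_cons_self)]

theorem dec_eq (D : α) (b : Bl α) (L : List (Bl α)) (h : ∀ c ∈ L, D ∈ c.1) :
    dec D (b :: L) = (b.1, b.2 - 1) :: L := by
  cases L with
  | nil => rfl
  | cons c L => rw [dec_cons, if_pos (h c List.mem_cons_self)]

theorem not_actv (q D : α) (L : List (Bl α)) (h : ∀ c ∈ L, D ∈ c.1) : ¬ actv q D L := by
  induction L with
  | nil => exact fun h => h
  | cons c L ih =>
    rw [actv_cons]
    split_ifs
    · exact fun h' => h' (h c List.mem_cons_self)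
    · exact ih fun d hd => h d (List.mem_cons_of_mem _ hd)

theorem Nest.all {c : Bl α} {L : List (Bl α)} (h : Nest (c :: L)) {D : α} (hD : D ∈ c.1) :
    ∀ d ∈ L, D ∈ d.1 := fun d hd => h.sub d hd hD

/-! ### the formulas -/

theorem kap_a (q D : α) (n : ℕ) : ∀ (b : Bl α) (L : List (Bl α)), L.length = n →
    Nest (b :: L) → q ∈ b.1 → D ∉ b.1 →
    kap q D (b :: L) = rib (dec D (b :: L)) + Qa q D L [b] := by
  induction n with
  | zero =>
    intro b L hn _ hq hD
    rw [List.length_eq_zero_iff] at hn
    subst hn
    rw [kap_single, if_pos ⟨hq, hD⟩, dec_single, rib_single]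
    simp only [Qa, add_zero]
  | succ n ih =>
    intro b L hn hL hq hD
    match L, hn, hL with
    | c :: L, hn, hL =>
      have hn' : L.length = n := by simpa using hn
      have hm := ih (b.1, b.2 + c.2) L hn' (hL.merge _) hq hD
      rw [kap_cons, if_pos ⟨hq, hD⟩, hm]
      by_cases hc : D ∈ c.1
      · have hall := hL.tail.all hc
        rw [kap_zero q D n c L hn' hL.tail hc, Qa_cons, if_pos hc, dec_cons, if_pos hc,
          dec_eq D _ L hall, Qa_eq_zero q D L _ hall,
          stL_eq q D (c :: L) (fun d hd => hL.tail.mem hc d hd), rib_cons]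
        show Hop b.1 (b.2 - 1) * rib (c :: L) + Hop b.1 b.2 * 0 -
          (rib ((b.1, b.2 + c.2 - 1) :: L) + 0) =
          Hop b.1 (b.2 - 1) * rib (c :: L) - rib ((b.1, b.2 - 1 + c.2) :: L) + 0
        have e : b.2 + c.2 - 1 = b.2 - 1 + c.2 := by ring
        rw [e, mul_zero, add_zero, add_zero, add_zero]
      · have hk := ih c L hn' hL.tail (hL.head_sub hq) hc
        rw [hk, Qa_cons, if_neg hc, dec_cons, if_neg hc, merge_dec]
        show Hop b.1 (b.2 - 1) * rib (stL q D (c :: L)) +
          Hop b.1 b.2 * (rib (dec D (c :: L)) + Qa q D L [c]) -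
          (rib (dec D ((b.1, b.2 + c.2) :: L)) + Qa q D L [(b.1, b.2 + c.2)]) =
          Hop b.1 b.2 * rib (dec D (c :: L)) - rib (dec D ((b.1, b.2 + c.2) :: L)) +
          (rib [(b.1, b.2 - 1)] * rib (stL q D (c :: L)) + Qa q D L [b, c])
        rw [merge_Qa q D L b c [], rib_single]
        simp only [mul_add]
        abel

open scoped Classical in
theorem kap_b (q D : α) (n : ℕ) : ∀ (b : Bl α) (L : List (Bl α)), L.length = n →
    Nest (b :: L) → q ∉ b.1 → D ∉ b.1 →
    kap q D (b :: L) = if actv q D L then
      rib (dec D (b :: L)) + Qb q D L [b] + rib (zl q D (b :: L)) else 0 := by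
  induction n with
  | zero =>
    intro b L hn _ hq hD
    rw [List.length_eq_zero_iff] at hn
    subst hn
    have h0 : ¬ actv q D [] := fun h => h
    rw [kap_single, if_neg (fun h => hq h.1), if_neg h0]
  | succ n ih =>
    intro b L hn hL hq hD
    match L, hn, hL with
    | c :: L, hn, hL =>
      have hn' : L.length = n := by simpa using hn
      have hm := ih (b.1, b.2 + c.2) L hn' (hL.merge _) hq hD
      rw [kap_cons, if_neg (fun h => hq h.1), hm, zero_add]
      by_cases hc : D ∈ c.1
      · have hall := hL.tail.all hc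
        rw [kap_zero q D n c L hn' hL.tail hc, if_neg (not_actv q D L hall),
          if_neg (not_actv q D (c :: L) (fun d hd => hL.tail.mem hc d hd)), mul_zero, sub_zero]
      · by_cases hqc : q ∈ c.1
        · have hk := kap_a q D n c L hn' hL.tail hqc hc
          have hact : actv q D (c :: L) := by
            rw [actv_cons, if_pos hqc]
            exact hc
          rw [hk, if_pos hact, dec_cons, if_neg hc, merge_dec, Qb_cons, if_neg hc, if_pos hqc,
            zl_cons, if_pos hqc]
          show Hop b.1 b.2 * (rib (dec D (c :: L)) + Qa q D L [c]) -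
            (if actv q D L then rib (dec D ((b.1, b.2 + c.2) :: L)) +
              Qb q D L [(b.1, b.2 + c.2)] + rib (zl q D ((b.1, b.2 + c.2) :: L)) else 0) =
            Hop b.1 b.2 * rib (dec D (c :: L)) - rib (dec D ((b.1, b.2 + c.2) :: L)) +
            Qa q D L [b, c] + rib ((b.1, b.2 + c.2 - 1) :: stL q D L)
          rw [merge_Qa q D L b c []]
          match L, hL with
          | [], hL =>
            have h0 : ¬ actv q D [] := fun h => h
            rw [if_neg h0]
            show Hop b.1 b.2 * (rib (dec D [c]) + 0) - 0 =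
              Hop b.1 b.2 * rib (dec D [c]) - rib [(b.1, b.2 + c.2 - 1)] +
              (Hop b.1 b.2 * 0 - 0) + rib [(b.1, b.2 + c.2 - 1)]
            rw [mul_zero, add_zero]
            abel
          | d :: L, hL =>
            have hqd : q ∈ d.1 := hL.tail.head_sub hqc
            by_cases hd : D ∈ d.1
            · have hall : ∀ e ∈ d :: L, D ∈ e.1 := fun e he => hL.tail.tail.mem hd e he
              rw [if_neg (not_actv q D _ hall), Qa_eq_zero q D _ _ hall, Qa_eq_zero q D _ _ hall,
                stL_eq q D _ hall, dec_eq D (b.1, b.2 + c.2) _ hall]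
              simp only [mul_zero, add_zero, sub_zero]
              abel
            · have hact2 : actv q D (d :: L) := by
                rw [actv_cons, if_pos hqd]
                exact hd
              rw [if_pos hact2, Qb_cons, if_neg hd, if_pos hqd, zl_cons, if_pos hqd]
              have e1 : Qa q D (d :: L) [(b.1, b.2 + c.2)] =
                  rib [(b.1, b.2 + c.2 - 1)] * rib (stL q D (d :: L)) +
                  Qa q D L ([(b.1, b.2 + c.2)] ++ [d]) := by
                rw [Qa_cons, if_neg hd]
                rfl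
              have e2 : rib ((b.1, b.2 + c.2 - 1) :: stL q D (d :: L)) =
                  Hop b.1 (b.2 + c.2 - 1) * rib (stL q D (d :: L)) -
                  rib ((b.1, b.2 + c.2 + d.2 - 1) :: stL q D L) := by
                rw [stL_cons, rib_cons]
                show Hop b.1 (b.2 + c.2 - 1) * rib ((st q D d.1, d.2) :: stL q D L) -
                  rib ((b.1, b.2 + c.2 - 1 + d.2) :: stL q D L) = _
                have e : b.2 + c.2 - 1 + d.2 = b.2 + c.2 + d.2 - 1 := by ring
                rw [e]
              rw [e1, e2, rib_single]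
              show Hop b.1 b.2 * (rib (dec D (c :: d :: L)) + Qa q D (d :: L) [c]) -
                (rib (dec D ((b.1, b.2 + c.2) :: d :: L)) + Qa q D L ([(b.1, b.2 + c.2)] ++ [d]) +
                  rib ((b.1, b.2 + c.2 + d.2 - 1) :: stL q D L)) = _
              simp only [mul_add]
              abel
        · have hk := ih c L hn' hL.tail hqc hc
          have hact : actv q D (c :: L) = actv q D L := by
            rw [actv_cons, if_neg hqc]
          rw [hk, hact]
          by_cases ha : actv q D L
          · rw [if_pos ha, if_pos ha, if_pos ha, dec_cons, if_neg hc, merge_dec, Qb_cons,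
              if_neg hc, if_neg hqc, zl_cons, if_neg hqc]
            have e1 : Qb q D L ([b] ++ [c]) = Hop b.1 b.2 * Qb q D L [c] -
                Qb q D L [(b.1, b.2 + c.2)] := merge_Qb q D L b c []
            have e2 : rib (b :: zl q D (c :: L)) = Hop b.1 b.2 * rib (zl q D (c :: L)) -
                rib (zl q D ((b.1, b.2 + c.2) :: L)) := by
              match L, ha with
              | d :: L, _ =>
                rw [zl_cons, zl_cons]
                by_cases hqd : q ∈ d.1
                · rw [if_pos hqd, if_pos hqd, rib_cons]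
                  show Hop b.1 b.2 * rib ((c.1, c.2 + d.2 - 1) :: stL q D L) -
                    rib ((b.1, b.2 + (c.2 + d.2 - 1)) :: stL q D L) =
                    Hop b.1 b.2 * rib ((c.1, c.2 + d.2 - 1) :: stL q D L) -
                    rib ((b.1, b.2 + c.2 + d.2 - 1) :: stL q D L)
                  have e : b.2 + (c.2 + d.2 - 1) = b.2 + c.2 + d.2 - 1 := by ring
                  rw [e]
                · rw [if_neg hqd, if_neg hqd, rib_cons]
            rw [e1, e2]
            simp only [mul_add]
            abel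
          · rw [if_neg ha, if_neg ha, if_neg ha, mul_zero, sub_zero]

end H50R
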