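import Pool.Agent.Helper50.CSB.Rib2
import Pool.Agent.Helper45.CSB.T

/-!
# Ribbons of sweeps on words: vanishing and normalization
-/

namespace H50R

open H45C Equiv

variable {α : Type*} [DecidableEq α]

/-- the number of leading blocks with one jump (the last block not counted) -/
def ld : List (Bl α) → ℕ
  | [] => 0
  | [_] => 0
  | b :: c :: L => if b.2 = 1 then ld (c :: L) + 1 else 0

theorem ld_cons (b c : Bl α) (L : List (Bl α)) :
    ld (b :: c :: L) = if b.2 = 1 then ld (c :: L) + 1 else 0 := rfl

/-- the set of the first block -/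
def hd : List (Bl α) → Finset α
  | [] => ∅
  | b :: _ => b.1

/-- a block with one jump has the set of the next block -/
def N1 : List (Bl α) → Prop
  | [] => True
  | [_] => True
  | b :: c :: L => (b.2 = 1 → b.1 = c.1) ∧ N1 (c :: L)

theorem rib_insert {X : Finset α} (A : Finset α) (l : α) (hl : l ∉ A) (hlX : l ∈ X)
    (n : ℕ) : ∀ (M : List (Bl α)), M.length = n → ∀ (a : ℤ) {z : Wd α}, z ∈ WS X →
    rib ((A, a) :: M) z = rib ((insert l A, a) :: M) z -
      (Hop (insert l A) 1 - Hop A 1) (rib ((insert l A, a - 1) :: M) z) := by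
  induction n with
  | zero =>
    intro M hn a z hz
    rw [List.length_eq_zero_iff] at hn
    subst hn
    rw [rib_single, rib_single, rib_single]
    show Hop A a z = Hop (insert l A) a z -
      (Hop (insert l A) 1 - Hop A 1) (Hop (insert l A) (a - 1) z)
    rw [Hop_insert_left A l hl X hlX z hz a]
    abel
  | succ n ih =>
    intro M hn a z hz
    match M, hn with
    | c :: M, hn =>
      have hn' : M.length = n := by simpa using hn
      have h1 := ih M hn' (a + c.2) hz
      have h2 := Hop_insert_left A l hl X hlX _ (rib_mem' (c :: M) hz) a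
      rw [rib_cons, rib_cons, rib_cons]
      show Hop A a (rib (c :: M) z) - rib ((A, a + c.2) :: M) z =
        (Hop (insert l A) a (rib (c :: M) z) - rib ((insert l A, a + c.2) :: M) z) -
        (Hop (insert l A) 1 - Hop A 1) (Hop (insert l A) (a - 1) (rib (c :: M) z) -
          rib ((insert l A, a - 1 + c.2) :: M) z)
      have e : a - 1 + c.2 = a + c.2 - 1 := by ring
      rw [h1, h2, map_sub, e]
      abel

theorem card_gap_insert {X A C : Finset α} {l : α} (hl : l ∈ (C \ A) ∩ X) :
    ((C \ insert l A) ∩ X).card + 1 = ((C \ A) ∩ X).card := by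
  have h : (C \ insert l A) ∩ X = ((C \ A) ∩ X).erase l := by
    ext x
    simp only [Finset.mem_inter, Finset.mem_sdiff, Finset.mem_insert, Finset.mem_erase]
    tauto
  rw [h, Finset.card_erase_add_one hl]

theorem Cg_refl (X : Finset α) (L : List (Bl α)) : Cg X L L :=
  List.forall₂_same.2 fun _ _ => ⟨fun _ _ => Iff.rfl, rfl⟩

theorem rib_head_congr {X A C : Finset α} (hAC : A ⊆ C) (h : ((C \ A) ∩ X).card = 0) (a : ℤ)
    (M : List (Bl α)) {z : Wd α} (hz : z ∈ WS X) :
    rib ((A, a) :: M) z = rib ((C, a) :: M) z := by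
  refine rib_congr X _ ((A, a) :: M) ((C, a) :: M) rfl
    (List.forall₂_cons.2 ⟨⟨?_, rfl⟩, Cg_refl X M⟩) hz
  rw [Finset.card_eq_zero] at h
  intro x hx
  refine ⟨fun h1 => hAC h1, fun h1 => ?_⟩
  by_contra h2
  have h3 : x ∈ (C \ A) ∩ X := Finset.mem_inter.2 ⟨Finset.mem_sdiff.2 ⟨h1, h2⟩, hx⟩
  rw [h] at h3
  exact absurd h3 (Finset.notMem_empty _)

/-- **Vanishing.** -/
theorem zero_block {X : Finset α} (g : ℕ) : ∀ (A : Finset α) (c : Bl α) (M : List (Bl α)),
    A ⊆ c.1 → N1 (c :: M) → ((c.1 \ A) ∩ X).card = g → g ≤ ld (c :: M) →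
    ∀ {z : Wd α}, z ∈ WS X → rib ((A, 0) :: c :: M) z = 0 := by
  induction g with
  | zero =>
    intro A c M hA _ hg _ z hz
    rw [rib_cons]
    show Hop A 0 (rib (c :: M) z) - rib ((A, 0 + c.2) :: M) z = 0
    rw [Hop_zero, zero_add, rib_head_congr hA hg c.2 M hz]
    exact sub_self _
  | succ g ih =>
    intro A c M hA hN hg hld z hz
    match M, hN, hld with
    | [], _, hld => exact absurd hld (by simp [ld])
    | d :: M, hN, hld =>
      have hc : c.2 = 1 := by
        by_contra h
        rw [ld_cons, if_neg h] at hld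
        omega
      rw [ld_cons, if_pos hc] at hld
      obtain ⟨hN1, hN2⟩ := hN
      have hcd := hN1 hc
      have hne : ((c.1 \ A) ∩ X).Nonempty := by
        rw [← Finset.card_pos, hg]
        omega
      obtain ⟨l, hl⟩ := hne
      have hl' := hl
      rw [Finset.mem_inter, Finset.mem_sdiff] at hl'
      have hg' := card_gap_insert hl
      have hA' : insert l A ⊆ c.1 := by
        intro x hx
        rcases Finset.mem_insert.1 hx with rfl | hx
        · exact hl'.1.1
        · exact hA hx
      rw [rib_insert A l hl'.1.2 hl'.2 _ _ rfl 0 hz,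
        ih (insert l A) c (d :: M) hA' ⟨hN1, hN2⟩ (by omega)
          (by rw [ld_cons, if_pos hc]; omega) hz]
      have h2 : rib ((insert l A, (0 : ℤ) - 1) :: c :: d :: M) z = 0 := by
        rw [rib_cons]
        show Hop (insert l A) (0 - 1) (rib (c :: d :: M) z) -
          rib ((insert l A, 0 - 1 + c.2) :: d :: M) z = 0
        have e : (0 : ℤ) - 1 + c.2 = 0 := by omega
        rw [e, Hop_neg _ (by norm_num), LinearMap.zero_apply, zero_sub, neg_eq_zero]
        refine ih (insert l A) d M (hcd ▸ hA') hN2 ?_ (by omega) hz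
        rw [← hcd]
        omega
      rw [h2, map_zero, sub_zero]

/-- change of the set of a block with one jump -/
theorem head_change {X : Finset α} (g : ℕ) : ∀ (A : Finset α) (c : Bl α) (M : List (Bl α)),
    A ⊆ c.1 → N1 (c :: M) → ((c.1 \ A) ∩ X).card = g → g ≤ ld (c :: M) + 1 →
    ∀ {z : Wd α}, z ∈ WS X → rib ((A, 1) :: c :: M) z = rib ((c.1, 1) :: c :: M) z := by
  induction g with
  | zero =>
    intro A c M hA _ hg _ z hz
    exact rib_head_congr hA hg 1 (c :: M) hz
  | succ g ih =>
    intro A c M hA hN hg hld z hz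
    have hne : ((c.1 \ A) ∩ X).Nonempty := by
      rw [← Finset.card_pos, hg]
      omega
    obtain ⟨l, hl⟩ := hne
    have hl' := hl
    rw [Finset.mem_inter, Finset.mem_sdiff] at hl'
    have hg' := card_gap_insert hl
    have hA' : insert l A ⊆ c.1 := by
      intro x hx
      rcases Finset.mem_insert.1 hx with rfl | hx
      · exact hl'.1.1
      · exact hA hx
    rw [rib_insert A l hl'.1.2 hl'.2 _ _ rfl 1 hz,
      ih (insert l A) c M hA' hN (by omega) (by omega) hz]
    have e : (1 : ℤ) - 1 = 0 := by norm_num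
    rw [e, zero_block g (insert l A) c M hA' hN (by omega) (by omega) hz, map_zero, sub_zero]

/-- the normalized list -/
def nrm : List (Bl α) → List (Bl α)
  | [] => []
  | [b] => [b]
  | b :: c :: L => (if b.2 = 1 then hd (nrm (c :: L)) else b.1, b.2) :: nrm (c :: L)

theorem nrm_cons (b c : Bl α) (L : List (Bl α)) : nrm (b :: c :: L) =
    (if b.2 = 1 then hd (nrm (c :: L)) else b.1, b.2) :: nrm (c :: L) := rfl

theorem nrm_form (b : Bl α) (L : List (Bl α)) : nrm (b :: L) = (hd (nrm (b :: L)), b.2) :: nrm L := by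
  cases L with
  | nil => rfl
  | cons c L => rfl

theorem N1_nrm (L : List (Bl α)) : N1 (nrm L) := by
  induction L with
  | nil => exact trivial
  | cons b L ih =>
    cases L with
    | nil => exact trivial
    | cons c L =>
      rw [nrm_cons]
      rw [nrm_form c L] at ih ⊢
      refine ⟨fun h => ?_, ih⟩
      have h' : b.2 = 1 := h
      show (if b.2 = 1 then _ else b.1) = _
      rw [if_pos h']
      rfl

theorem ld_nrm (L : List (Bl α)) : ld (nrm L) = ld L := by
  induction L with
  | nil => rfl
  | cons b L ih =>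
    cases L with
    | nil => rfl
    | cons c L =>
      rw [nrm_cons, ld_cons]
      rw [nrm_form c L] at ih ⊢
      rw [ld_cons, ih]

/-- lists that can be normalized -/
def WF (X : Finset α) : List (Bl α) → Prop
  | [] => True
  | [_] => True
  | b :: c :: L => b.1 ⊆ hd (nrm (c :: L)) ∧ 1 ≤ b.2 ∧
      (((hd (nrm (c :: L)) \ b.1) ∩ X).card : ℤ) ≤ b.2 + ld (c :: L) ∧ WF X (c :: L)

theorem WF.tail {X : Finset α} {b : Bl α} {L : List (Bl α)} (h : WF X (b :: L)) : WF X L := by
  cases L with
  | nil => exact trivial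
  | cons c L => exact h.2.2.2

theorem rib_nrm {X : Finset α} (L : List (Bl α)) (hL : WF X L) :
    (∀ {z : Wd α}, z ∈ WS X → rib L z = rib (nrm L) z) ∧
    ∀ (b : Bl α) {z : Wd α}, z ∈ WS X → rib (b :: L) z = rib (b :: nrm L) z := by
  induction L with
  | nil => exact ⟨fun _ => rfl, fun _ _ _ => rfl⟩
  | cons c L ih =>
    obtain ⟨i1, i2⟩ := ih hL.tail
    have h1 : ∀ {z : Wd α}, z ∈ WS X → rib (c :: L) z = rib (nrm (c :: L)) z := by
      intro z hz
      match L, hL, i2 with
      | [], _, _ => rfl
      | d :: L, hL, i2 =>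
        rw [i2 c hz, nrm_cons]
        by_cases hc : c.2 = 1
        · rw [if_pos hc, nrm_form d L]
          have hN := N1_nrm (d :: L)
          have hl := ld_nrm (d :: L)
          rw [nrm_form d L] at hN hl
          have hc' : c = (c.1, 1) := by
            rw [← hc]
          have h3 := hL.2.2.1
          rw [hc] at h3
          rw [hc']
          exact head_change _ c.1 (hd (nrm (d :: L)), d.2) (nrm L) hL.1 hN rfl
            (by
              rw [hl]
              have : (((hd (nrm (d :: L)) \ c.1) ∩ X).card : ℤ) ≤ 1 + ld (d :: L) := h3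
              show ((hd (nrm (d :: L)) \ c.1) ∩ X).card ≤ ld (d :: L) + 1
              omega) hz
        · rw [if_neg hc]
    refine ⟨h1, ?_⟩
    intro b z hz
    rw [rib_cons, nrm_form c L, rib_cons, ← nrm_form c L]
    show Hop b.1 b.2 (rib (c :: L) z) - rib ((b.1, b.2 + c.2) :: L) z =
      Hop b.1 b.2 (rib (nrm (c :: L)) z) - rib ((b.1, b.2 + c.2) :: nrm L) z
    rw [h1 hz, i2 _ hz]

/-- the last block has a positive number of jumps -/
def lpos : List (Bl α) → Prop
  | [] => True
  | [b] => 1 ≤ b.2
  | _ :: c :: L => lpos (c :: L)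

/-- the last block has no jump -/
def lzero : List (Bl α) → Prop
  | [] => False
  | [b] => b.2 = 0
  | _ :: c :: L => lzero (c :: L)

theorem rib_lzero (n : ℕ) : ∀ (b c : Bl α) (L : List (Bl α)), L.length = n → lzero (c :: L) →
    rib (b :: c :: L) = 0 := by
  induction n with
  | zero =>
    intro b c L hn h
    rw [List.length_eq_zero_iff] at hn
    subst hn
    have h' : c.2 = 0 := h
    rw [rib_cons, rib_single, rib_single]
    show Hop b.1 b.2 * Hop c.1 c.2 - Hop b.1 (b.2 + c.2) = 0
    rw [h', Hop_zero, add_zero, mul_one, sub_self]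
  | succ n ih =>
    intro b c L hn h
    match L, hn, h with
    | d :: L, hn, h =>
      have hn' : L.length = n := by simpa using hn
      rw [rib_cons, ih c d L hn' h, ih (b.1, b.2 + c.2) d L hn' h, mul_zero, sub_zero]

end H50R
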