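import Pool.Agent.Helper50.CSB.Rib3

/-!
# Ribbons of sweeps on words: positivity
-/

namespace H50R

open H45C Equiv

variable {α : Type*} [DecidableEq α]

/-- normal lists -/
def NF (X : Finset α) : List (Bl α) → Prop
  | [] => True
  | [b] => 1 ≤ b.2
  | b :: c :: L => b.1 ⊆ c.1 ∧ 1 ≤ b.2 ∧ (b.2 = 1 → b.1 = c.1) ∧
      (((c.1 \ b.1) ∩ X).card : ℤ) ≤ b.2 + ld (c :: L) ∧ NF X (c :: L)

theorem NF.tail {X : Finset α} {b : Bl α} {L : List (Bl α)} (h : NF X (b :: L)) : NF X L := by
  cases L with
  | nil => exact trivial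
  | cons c L => exact h.2.2.2.2

theorem NF.pos {X : Finset α} {b : Bl α} {L : List (Bl α)} (h : NF X (b :: L)) : 1 ≤ b.2 := by
  cases L with
  | nil => exact h
  | cons c L => exact h.2.1

theorem NF.mono {X Y : Finset α} (hXY : Y ⊆ X) {L : List (Bl α)} (h : NF X L) : NF Y L := by
  induction L with
  | nil => exact trivial
  | cons b L ih =>
    cases L with
    | nil => exact h
    | cons c L =>
      refine ⟨h.1, h.2.1, h.2.2.1, le_trans ?_ h.2.2.2.1, ih h.tail⟩
      exact_mod_cast Finset.card_le_card (Finset.inter_subset_inter_left hXY)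

theorem NF.nest {X : Finset α} {L : List (Bl α)} (h : NF X L) : Nest L := by
  induction L with
  | nil => exact List.Pairwise.nil
  | cons b L ih =>
    refine List.pairwise_cons.2 ⟨?_, ih h.tail⟩
    cases L with
    | nil =>
      intro c hc
      exact absurd hc (List.not_mem_nil)
    | cons c L =>
      intro d hd
      rcases List.mem_cons.1 hd with rfl | hd
      · exact h.1
      · exact h.1.trans ((ih h.tail).sub d hd)

theorem NF.lpos {X : Finset α} {L : List (Bl α)} (h : NF X L) : lpos L := by
  induction L with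
  | nil => exact trivial
  | cons b L ih =>
    cases L with
    | nil => exact h
    | cons c L => exact ih h.tail

theorem NF.nrm_eq {X : Finset α} {L : List (Bl α)} (h : NF X L) : nrm L = L := by
  induction L with
  | nil => rfl
  | cons b L ih =>
    cases L with
    | nil => rfl
    | cons c L =>
      rw [nrm_cons, ih h.tail]
      by_cases hb : b.2 = 1
      · rw [if_pos hb]
        show (c.1, b.2) :: c :: L = b :: c :: L
        rw [← h.2.2.1 hb]
      · rw [if_neg hb]

theorem NF.wf {X : Finset α} {L : List (Bl α)} (h : NF X L) : WF X L := by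
  induction L with
  | nil => exact trivial
  | cons b L ih =>
    cases L with
    | nil => exact trivial
    | cons c L =>
      have h1 := h.tail.nrm_eq
      refine ⟨?_, h.2.1, ?_, ih h.tail⟩
      · rw [h1]
        exact h.1
      · rw [h1]
        exact h.2.2.2.1

theorem NF_nrm {X : Finset α} {L : List (Bl α)} (h : WF X L) (hl : lpos L) : NF X (nrm L) := by
  induction L with
  | nil => exact trivial
  | cons b L ih =>
    cases L with
    | nil => exact hl
    | cons c L =>
      have ih' := ih h.tail hl
      have hld := ld_nrm (c :: L)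
      obtain ⟨h1, h2, h3, h4⟩ := h
      rw [nrm_cons]
      rw [nrm_form c L] at ih' hld ⊢
      refine ⟨?_, h2, ?_, ?_, ih'⟩
      · show (if b.2 = 1 then hd (nrm (c :: L)) else b.1) ⊆ hd (nrm (c :: L))
        split_ifs
        · exact Finset.Subset.refl _
        · exact h1
      · intro hb
        have hb' : b.2 = 1 := hb
        show (if b.2 = 1 then hd (nrm (c :: L)) else b.1) = hd (nrm (c :: L))
        rw [if_pos hb']
      · rw [hld]
        refine le_trans ?_ h3
        have h5 : b.1 ⊆ (if b.2 = 1 then hd (nrm (c :: L)) else b.1) := by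
          split_ifs
          · exact h1
          · exact Finset.Subset.refl _
        have h6 := Finset.card_le_card (Finset.inter_subset_inter_right (u := X)
          (Finset.sdiff_subset_sdiff (Finset.Subset.refl (hd (nrm (c :: L)))) h5))
        exact_mod_cast h6

theorem dec_form (D : α) (b : Bl α) (L : List (Bl α)) :
    ∃ x M, dec D (b :: L) = (b.1, x) :: M := by
  cases L with
  | nil => exact ⟨_, _, rfl⟩
  | cons c L =>
    rw [dec_cons]
    split_ifs
    · exact ⟨_, _, rfl⟩
    · exact ⟨b.2, _, rfl⟩

theorem card_erase_gap {X A C : Finset α} {D : α} (hDX : D ∈ X) (hDC : D ∈ C) (hDA : D ∉ A) :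
    ((C \ A) ∩ X.erase D).card + 1 = ((C \ A) ∩ X).card := by
  have h : (C \ A) ∩ X.erase D = ((C \ A) ∩ X).erase D := by
    rw [Finset.inter_erase]
  rw [h, Finset.card_erase_add_one (Finset.mem_inter.2 ⟨Finset.mem_sdiff.2 ⟨hDC, hDA⟩, hDX⟩)]

theorem card_gap_trans (X A B C : Finset α) :
    ((C \ A) ∩ X).card ≤ ((C \ B) ∩ X).card + ((B \ A) ∩ X).card := by
  refine le_trans (Finset.card_le_card ?_) (Finset.card_union_le _ _)
  intro x hx
  simp only [Finset.mem_inter, Finset.mem_sdiff, Finset.mem_union] at hx ⊢
  tauto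

theorem dec_ok {X : Finset α} {D : α} (hDX : D ∈ X) (L : List (Bl α)) : ∀ (b : Bl α),
    NF X (b :: L) → D ∉ b.1 → WF (X.erase D) (dec D (b :: L)) ∧
      b.1 ⊆ hd (nrm (dec D (b :: L))) ∧
      ((hd (nrm (dec D (b :: L))) \ b.1) ∩ X.erase D).card + ld (b :: L) ≤ ld (dec D (b :: L)) ∧
      (lpos (dec D (b :: L)) ∨ lzero (dec D (b :: L))) := by
  induction L with
  | nil =>
    intro b hb _
    refine ⟨trivial, Finset.Subset.refl _, ?_, ?_⟩
    · show ((b.1 \ b.1) ∩ X.erase D).card + 0 ≤ 0
      simp
    · have hb' : 1 ≤ b.2 := hb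
      show 1 ≤ b.2 - 1 ∨ b.2 - 1 = 0
      omega
  | cons c L ih =>
    intro b hb hD
    obtain ⟨h1, h2, h3, h4, h5⟩ := hb
    rw [dec_cons]
    by_cases hc : D ∈ c.1
    · rw [if_pos hc]
      have hb1 : b.2 ≠ 1 := fun h => hD (h3 h ▸ hc)
      have hn := h5.nrm_eq
      have hcard := card_erase_gap hDX hc hD
      have hmono : NF (X.erase D) (c :: L) := h5.mono (Finset.erase_subset _ _)
      have hn2 : nrm ((b.1, b.2 - 1) :: c :: L) = (if b.2 - 1 = 1 then c.1 else b.1, b.2 - 1) ::
          c :: L := by
        rw [nrm_cons, hn]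
        rfl
      have hlb : ld (b :: c :: L) = 0 := by
        rw [ld_cons, if_neg hb1]
      refine ⟨⟨?_, ?_, ?_, hmono.wf⟩, ?_, ?_, Or.inl hmono.lpos⟩
      · rw [hn]
        exact h1
      · show 1 ≤ b.2 - 1
        omega
      · rw [hn]
        show (((c.1 \ b.1) ∩ X.erase D).card : ℤ) ≤ b.2 - 1 + ld (c :: L)
        omega
      · rw [hn2]
        show b.1 ⊆ (if b.2 - 1 = 1 then c.1 else b.1)
        split_ifs
        · exact h1
        · exact Finset.Subset.refl _
      · rw [hn2, hlb]
        show (((if b.2 - 1 = 1 then c.1 else b.1) \ b.1) ∩ X.erase D).card + 0 ≤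
          ld ((b.1, b.2 - 1) :: c :: L)
        rw [ld_cons]
        show (((if b.2 - 1 = 1 then c.1 else b.1) \ b.1) ∩ X.erase D).card + 0 ≤
          (if b.2 - 1 = 1 then ld (c :: L) + 1 else 0)
        by_cases hb2 : b.2 - 1 = 1
        · rw [if_pos hb2, if_pos hb2]
          omega
        · rw [if_neg hb2, if_neg hb2]
          simp
    · rw [if_neg hc]
      obtain ⟨i1, i2, i3, i4⟩ := ih c h5 hc
      obtain ⟨x, M, hM⟩ := dec_form D c L
      rw [hM] at i1 i2 i3 i4 ⊢
      have hcard := card_gap_trans (X.erase D) b.1 c.1 (hd (nrm ((c.1, x) :: M)))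
      have hcard2 : ((c.1 \ b.1) ∩ X.erase D).card ≤ ((c.1 \ b.1) ∩ X).card :=
        Finset.card_le_card (Finset.inter_subset_inter_left (Finset.erase_subset _ _))
      have hn2 : nrm (b :: (c.1, x) :: M) =
          (if b.2 = 1 then hd (nrm ((c.1, x) :: M)) else b.1, b.2) :: nrm ((c.1, x) :: M) := rfl
      refine ⟨⟨h1.trans i2, h2, ?_, i1⟩, ?_, ?_, i4⟩
      · omega
      · rw [hn2]
        show b.1 ⊆ (if b.2 = 1 then hd (nrm ((c.1, x) :: M)) else b.1)
        split_ifs
        · exact h1.trans i2
        · exact Finset.Subset.refl _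
      · rw [hn2, ld_cons, ld_cons]
        show (((if b.2 = 1 then hd (nrm ((c.1, x) :: M)) else b.1) \ b.1) ∩ X.erase D).card +
          (if b.2 = 1 then ld (c :: L) + 1 else 0) ≤
          (if b.2 = 1 then ld ((c.1, x) :: M) + 1 else 0)
        by_cases hb1 : b.2 = 1
        · rw [if_pos hb1, if_pos hb1, if_pos hb1, h3 hb1]
          omega
        · rw [if_neg hb1, if_neg hb1, if_neg hb1]
          simp

theorem ld_stL (q D : α) (L : List (Bl α)) : ld (stL q D L) = ld L := by
  induction L with
  | nil => rfl
  | cons b L ih =>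
    cases L with
    | nil => rfl
    | cons c L =>
      rw [stL_cons, stL_cons, ld_cons, ld_cons, ← stL_cons, ih]

theorem st_ok {X : Finset α} {q D : α} (hDX : D ∈ X) (hqD : q ≠ D) (L : List (Bl α))
    (hq : ∀ b ∈ L, q ∈ b.1) (h : NF X L) : NF (X.erase D) (stL q D L) := by
  induction L with
  | nil => exact trivial
  | cons b L ih =>
    cases L with
    | nil => exact h
    | cons c L =>
      have ih' := ih (fun d hd => hq d (List.mem_cons_of_mem _ hd)) h.tail
      have hqb : q ∈ b.1 := hq b List.mem_cons_self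
      have hqc : q ∈ c.1 := hq c (List.mem_cons_of_mem _ List.mem_cons_self)
      obtain ⟨h1, h2, h3, h4, h5⟩ := h
      have hld := ld_stL q D (c :: L)
      rw [stL_cons] at hld
      refine ⟨?_, h2, ?_, ?_, ih'⟩
      · show st q D b.1 ⊆ st q D c.1
        unfold st
        by_cases hDb : D ∈ b.1
        · rw [if_pos hDb, if_pos (h1 hDb)]
          exact h1
        · rw [if_neg hDb]
          split_ifs
          · exact (Finset.erase_subset _ _).trans h1
          · exact Finset.erase_subset_erase _ h1
      · intro hb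
        show st q D b.1 = st q D c.1
        rw [h3 hb]
      · refine le_trans ?_ (h4.trans_eq (by rw [← hld]; rfl))
        have : ((st q D c.1 \ st q D b.1) ∩ X.erase D).card ≤ ((c.1 \ b.1) ∩ X).card := by
          unfold st
          by_cases hDb : D ∈ b.1
          · rw [if_pos hDb, if_pos (h1 hDb)]
            exact Finset.card_le_card (Finset.inter_subset_inter_left (Finset.erase_subset _ _))
          · rw [if_neg hDb]
            by_cases hDc : D ∈ c.1
            · rw [if_pos hDc]
              have h6 := card_erase_gap hDX hDc hDb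
              rw [← h6]
              refine le_trans (Finset.card_le_card (t := insert q ((c.1 \ b.1) ∩ X.erase D)) ?_)
                (Finset.card_insert_le _ _)
              intro x hx
              simp only [Finset.mem_inter, Finset.mem_sdiff, Finset.mem_insert,
                Finset.mem_erase] at hx ⊢
              tauto
            · rw [if_neg hDc]
              refine Finset.card_le_card ?_
              intro x hx
              simp only [Finset.mem_inter, Finset.mem_sdiff, Finset.mem_erase] at hx ⊢
              tauto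
        exact_mod_cast this

theorem dl_ok {X Y : Finset α} (hYX : Y ⊆ X) (c : Bl α) (S P : List (Bl α)) : ∀ (b : Bl α),
    NF X (b :: (P ++ c :: S)) → (∃ x M, dl (b :: P) = (b.1, x) :: M) ∧
      (lzero (dl (b :: P)) ∨ (NF Y (dl (b :: P)) ∧ ld (b :: (P ++ c :: S)) ≤ ld (dl (b :: P)))) := by
  induction P with
  | nil =>
    intro b h
    refine ⟨⟨_, _, rfl⟩, ?_⟩
    have h2 := h.pos
    by_cases hb : b.2 = 1
    · left
      show b.2 - 1 = 0
      omega
    · right
      refine ⟨?_, ?_⟩
      · show 1 ≤ b.2 - 1
        omega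
      · show ld (b :: c :: S) ≤ 0
        rw [ld_cons, if_neg hb]
  | cons d P ih =>
    intro b h
    refine ⟨⟨b.2, dl (d :: P), rfl⟩, ?_⟩
    obtain ⟨⟨x, M, hM⟩, i2⟩ := ih d h.tail
    show lzero (b :: dl (d :: P)) ∨ (NF Y (b :: dl (d :: P)) ∧
      ld (b :: d :: (P ++ c :: S)) ≤ ld (b :: dl (d :: P)))
    obtain ⟨h1, h2, h3, h4, h5⟩ := h
    rw [hM] at i2 ⊢
    rcases i2 with i2 | ⟨i2, i3⟩
    · left
      exact i2
    · right
      have hcard2 : ((d.1 \ b.1) ∩ Y).card ≤ ((d.1 \ b.1) ∩ X).card :=
        Finset.card_le_card (Finset.inter_subset_inter_left hYX)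
      have h4' : (((d.1 \ b.1) ∩ X).card : ℤ) ≤ b.2 + ld (d :: (P ++ c :: S)) := h4
      refine ⟨⟨h1, h2, h3, ?_, i2⟩, ?_⟩
      · show (((d.1 \ b.1) ∩ Y).card : ℤ) ≤ b.2 + ld ((d.1, x) :: M)
        omega
      · rw [ld_cons, ld_cons]
        split_ifs
        · omega
        · exact le_rfl

theorem zl_ok {X : Finset α} {q D : α} (hDX : D ∈ X) (hqX : q ∈ X) (hqD : q ≠ D)
    (L : List (Bl α)) : ∀ (b : Bl α), NF X (b :: L) → q ∉ b.1 → D ∉ b.1 → actv q D L →
    NF (X.erase D) (zl q D (b :: L)) ∧ (∃ x M, zl q D (b :: L) = (b.1, x) :: M) ∧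
      ld (b :: L) ≤ ld (zl q D (b :: L)) := by
  induction L with
  | nil => exact fun _ _ _ _ h => absurd h (fun h => h)
  | cons c L ih =>
    intro b h hq hD ha
    have hnest := h.nest
    obtain ⟨h1, h2, h3, h4, h5⟩ := h
    rw [zl_cons]
    rw [actv_cons] at ha
    by_cases hqc : q ∈ c.1
    · rw [if_pos hqc] at ha ⊢
      have hb1 : b.2 ≠ 1 := fun h => hq (h3 h ▸ hqc)
      have hc1 := h5.pos
      refine ⟨?_, ⟨_, _, rfl⟩, ?_⟩
      · match L, h5, h4, hnest with
        | [], _, _, _ =>
          show 1 ≤ b.2 + c.2 - 1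
          omega
        | d :: L, h5, h4, hnest =>
          obtain ⟨k1, k2, k3, k4, k5⟩ := h5
          have hqd : q ∈ d.1 := k1 hqc
          have hall : ∀ e ∈ d :: L, q ∈ e.1 := fun e he => k5.nest.mem hqd e he
          have hst := st_ok hDX hqD (d :: L) hall k5
          have hld := ld_stL q D (d :: L)
          rw [stL_cons] at hst hld ⊢
          refine ⟨?_, ?_, ?_, ?_, hst⟩
          · show b.1 ⊆ st q D d.1
            unfold st
            split_ifs
            · exact h1.trans k1
            · intro x hx
              refine Finset.mem_erase.2 ⟨fun h => hq (h ▸ hx), k1 (h1 hx)⟩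
          · show 1 ≤ b.2 + c.2 - 1
            omega
          · intro h
            have h' : b.2 + c.2 - 1 = 1 := h
            omega
          · rw [hld]
            show (((st q D d.1 \ b.1) ∩ X.erase D).card : ℤ) ≤ b.2 + c.2 - 1 + ld (d :: L)
            have hcard : ((st q D d.1 \ b.1) ∩ X.erase D).card + 1 ≤ ((d.1 \ b.1) ∩ X).card := by
              unfold st
              by_cases hDd : D ∈ d.1
              · rw [if_pos hDd]
                exact (card_erase_gap hDX hDd hD).le
              · rw [if_neg hDd]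
                have hqm : q ∈ (d.1 \ b.1) ∩ X :=
                  Finset.mem_inter.2 ⟨Finset.mem_sdiff.2 ⟨hqd, hq⟩, hqX⟩
                rw [← Finset.card_erase_add_one hqm]
                refine Nat.add_le_add_right (Finset.card_le_card ?_) 1
                intro x hx
                simp only [Finset.mem_inter, Finset.mem_sdiff, Finset.mem_erase] at hx ⊢
                tauto
            have htr := card_gap_trans X b.1 c.1 d.1
            have h4' : (((c.1 \ b.1) ∩ X).card : ℤ) ≤ b.2 + ld (c :: d :: L) := h4
            rw [ld_cons] at h4'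
            by_cases hc : c.2 = 1
            · rw [if_pos hc] at h4'
              push_cast at h4'
              have h0 : ((d.1 \ c.1) ∩ X).card = 0 := by
                rw [k3 hc]
                simp
              omega
            · rw [if_neg hc] at h4'
              push_cast at h4'
              omega
      · rw [ld_cons, if_neg hb1]
        exact Nat.zero_le _
    · rw [if_neg hqc] at ha ⊢
      have hDc : D ∉ c.1 := by
        intro h
        exact not_actv q D L (fun d hd => hnest.tail.sub d hd h) ha
      obtain ⟨i1, ⟨x, M, hM⟩, i3⟩ := ih c h5 hqc hDc ha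
      rw [hM] at i1 i3 ⊢
      have hcard2 : ((c.1 \ b.1) ∩ X.erase D).card ≤ ((c.1 \ b.1) ∩ X).card :=
        Finset.card_le_card (Finset.inter_subset_inter_left (Finset.erase_subset _ _))
      refine ⟨⟨h1, h2, h3, ?_, i1⟩, ⟨b.2, _, rfl⟩, ?_⟩
      · show (((c.1 \ b.1) ∩ X.erase D).card : ℤ) ≤ b.2 + ld ((c.1, x) :: M)
        omega
      · rw [ld_cons, ld_cons]
        split_ifs
        · omega
        · exact le_rfl

/-! ### positivity -/

theorem WN.smul {a : ℤ} (ha : 0 ≤ a) {z : Wd α} (hz : WN z) : WN (a • z) := fun x => by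
  simpa using mul_nonneg ha (hz x)

/-- the words of an element of `WS X` -/
theorem mem_WS_support {X : Finset α} {z : Wd α} (hz : z ∈ WS X) :
    ∀ u ∈ z.support, u.Nodup ∧ u.toFinset = X := by
  refine WS_induction (p := fun z => ∀ u ∈ z.support, u.Nodup ∧ u.toFinset = X) hz ?_ ?_ ?_ ?_
  · intro u hu hX v hv
    have hv' : v ∈ (Finsupp.single u (1 : ℤ)).support := hv
    have := Finsupp.support_single_subset hv'
    rw [Finset.mem_singleton] at this
    subst this
    exact ⟨hu, hX⟩
  · intro u hu
    simp at hu
  · intro y z hy hz u hu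
    rcases Finset.mem_union.1 (Finsupp.support_add hu) with h | h
    · exact hy u h
    · exact hz u h
  · intro a z hz u hu
    exact hz u (Finsupp.support_smul hu)

theorem WN_of_words {X : Finset α} (f : Module.End ℤ (Wd α))
    (hf : ∀ u : List α, u.Nodup → u.toFinset = X → WN (f (wd u))) {z : Wd α} (hz : z ∈ WS X)
    (hn : WN z) : WN (f z) := by
  have h1 : z = ∑ u ∈ z.support, z u • wd u := by
    conv_lhs => rw [← Finsupp.sum_single z]
    unfold Finsupp.sum
    refine Finset.sum_congr rfl fun u _ => ?_
    simp [wd]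
  rw [h1, map_sum]
  refine WN.sum _ _ fun u hu => ?_
  rw [map_smul]
  obtain ⟨h2, h3⟩ := mem_WS_support hz u hu
  exact WN.smul (hn u) (hf u h2 h3)

theorem rib_nil_word (n : ℕ) : ∀ (b : Bl α) (L : List (Bl α)), L.length = n →
    (∀ c ∈ b :: L, 1 ≤ c.2) → rib (b :: L) (wd []) = 0 := by
  induction n with
  | zero =>
    intro b L hn h
    rw [List.length_eq_zero_iff] at hn
    subst hn
    have hb := h b List.mem_cons_self
    rw [rib_single, Hop_wd, hop_nil, if_neg (by omega)]
  | succ n ih =>
    intro b L hn h
    match L, hn, h with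
    | c :: L, hn, h =>
      have hn' : L.length = n := by simpa using hn
      have hb := h b List.mem_cons_self
      have hc := h c (List.mem_cons_of_mem _ List.mem_cons_self)
      have h1 := ih c L hn' (fun d hd => h d (List.mem_cons_of_mem _ hd))
      have h2 := ih (b.1, b.2 + c.2) L hn' (by
        intro d hd
        rcases List.mem_cons.1 hd with rfl | hd
        · show 1 ≤ b.2 + c.2
          omega
        · exact h d (List.mem_cons_of_mem _ (List.mem_cons_of_mem _ hd)))
      rw [rib_cons, LinearMap.sub_apply, Module.End.mul_apply, h1, h2, map_zero, sub_zero]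

theorem NF.all_pos {X : Finset α} {L : List (Bl α)} (h : NF X L) : ∀ c ∈ L, 1 ≤ c.2 := by
  induction L with
  | nil => exact fun c hc => absurd hc List.not_mem_nil
  | cons b L ih =>
    intro c hc
    rcases List.mem_cons.1 hc with rfl | hc
    · exact h.pos
    · exact ih h.tail c hc

/-- all normal ribbons are nonnegative on the words with letter set `X` -/
def Pos (X : Finset α) : Prop :=
  ∀ L : List (Bl α), NF X L → ∀ {z : Wd α}, z ∈ WS X → WN z → WN (rib L z)

theorem Pos.wf {X : Finset α} (hP : Pos X) {L : List (Bl α)} (h : WF X L)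
    (hl : lpos L ∨ lzero L) {z : Wd α} (hz : z ∈ WS X) (hn : WN z) : WN (rib L z) := by
  rcases hl with hl | hl
  · rw [(rib_nrm L h).1 hz]
    exact hP _ (NF_nrm h hl) hz hn
  · match L, hl with
    | [b], hl =>
      have hl' : b.2 = 0 := hl
      rw [rib_single, hl', Hop_zero]
      exact hn
    | b :: c :: L, hl =>
      rw [rib_lzero _ b c L rfl hl, LinearMap.zero_apply]
      exact WN.zero

theorem Pos.dl {X Y : Finset α} (hYX : Y ⊆ X) (hP : Pos Y) (c : Bl α) (S : List (Bl α)) (b : Bl α)
    (P : List (Bl α)) (h : NF X (b :: (P ++ c :: S))) {z : Wd α} (hz : z ∈ WS Y) (hn : WN z) :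
    WN (rib (H50R.dl (b :: P)) z) := by
  obtain ⟨⟨x, M, hM⟩, h2⟩ := dl_ok hYX c S P b h
  rcases h2 with h2 | ⟨h2, -⟩
  · rw [hM] at h2 ⊢
    cases M with
    | nil =>
      have h2' : x = 0 := h2
      rw [rib_single]
      show WN (Hop b.1 x z)
      rw [h2', Hop_zero]
      exact hn
    | cons e M =>
      rw [rib_lzero _ _ e M rfl h2, LinearMap.zero_apply]
      exact WN.zero
  · exact hP _ h2 hz hn

theorem Pos.qa {X : Finset α} {q D : α} (hDX : D ∈ X) (hqD : q ≠ D)
    (hP : Pos (X.erase D)) (S : List (Bl α)) : ∀ (b : Bl α) (P : List (Bl α)),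
    NF X (b :: (P ++ S)) → (∀ c ∈ S, q ∈ c.1) → ∀ {z : Wd α}, z ∈ WS (X.erase D) → WN z →
    WN (Qa q D S (b :: P) z) := by
  induction S with
  | nil =>
    intro b P _ _ z _ _
    show WN ((0 : Module.End ℤ (Wd α)) z)
    rw [LinearMap.zero_apply]
    exact WN.zero
  | cons c S ih =>
    intro b P h hq z hz hn
    rw [Qa_cons]
    by_cases hc : D ∈ c.1
    · rw [if_pos hc, LinearMap.zero_apply]
      exact WN.zero
    · rw [if_neg hc, LinearMap.add_apply, Module.End.mul_apply]
      have hS : NF X (c :: S) := by
        clear hz hn hP ih hq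
        induction P generalizing b with
        | nil => exact h.tail
        | cons e P ihP => exact ihP e h.tail
      refine WN.add ?_ ?_
      · exact Pos.dl (Finset.erase_subset _ _) hP c S b P h (rib_mem' _ hz)
          (hP _ (st_ok hDX hqD (c :: S) hq hS) hz hn)
      · refine ih b (P ++ [c]) ?_ (fun d hd => hq d (List.mem_cons_of_mem _ hd)) hz hn
        rw [List.append_assoc]
        exact h

theorem Pos.qb {X : Finset α} {q D : α} (hDX : D ∈ X) (hqD : q ≠ D)
    (hP : Pos (X.erase D)) (S : List (Bl α)) : ∀ (b : Bl α) (P : List (Bl α)),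
    NF X (b :: (P ++ S)) → ∀ {z : Wd α}, z ∈ WS (X.erase D) → WN z →
    WN (Qb q D S (b :: P) z) := by
  induction S with
  | nil =>
    intro b P _ z _ _
    show WN ((0 : Module.End ℤ (Wd α)) z)
    rw [LinearMap.zero_apply]
    exact WN.zero
  | cons c S ih =>
    intro b P h z hz hn
    rw [Qb_cons]
    by_cases hc : D ∈ c.1
    · rw [if_pos hc, LinearMap.zero_apply]
      exact WN.zero
    · rw [if_neg hc]
      have h' : NF X (b :: ((P ++ [c]) ++ S)) := by
        rw [List.append_assoc]
        exact h
      by_cases hqc : q ∈ c.1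
      · rw [if_pos hqc]
        have hS : NF X (c :: S) := by
          clear hz hn hP ih h'
          induction P generalizing b with
          | nil => exact h.tail
          | cons e P ihP => exact ihP e h.tail
        exact Pos.qa hDX hqD hP S b (P ++ [c]) h' (fun d hd => hS.nest.sub d hd hqc) hz hn
      · rw [if_neg hqc]
        exact ih b (P ++ [c]) h' hz hn

theorem Pos.kap {X : Finset α} {q D : α} (hDX : D ∈ X) (hqX : q ∈ X) (hqD : q ≠ D)
    (hP : Pos (X.erase D)) (b : Bl α) (L : List (Bl α)) (h : NF X (b :: L))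
    {z : Wd α} (hz : z ∈ WS (X.erase D)) (hn : WN z) : WN (H50R.kap q D (b :: L) z) := by
  by_cases hD : D ∈ b.1
  · rw [kap_zero q D _ b L rfl h.nest hD, LinearMap.zero_apply]
    exact WN.zero
  · obtain ⟨d1, -, -, d4⟩ := dec_ok hDX L b h hD
    have hdec : WN (rib (dec D (b :: L)) z) := hP.wf d1 d4 hz hn
    by_cases hq : q ∈ b.1
    · rw [kap_a q D _ b L rfl h.nest hq hD, LinearMap.add_apply]
      exact WN.add hdec (Pos.qa hDX hqD hP L b [] h (fun d hd => h.nest.sub d hd hq) hz hn)
    · rw [kap_b q D _ b L rfl h.nest hq hD]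
      by_cases ha : actv q D L
      · rw [if_pos ha, LinearMap.add_apply, LinearMap.add_apply]
        refine WN.add (WN.add hdec ?_) ?_
        · exact Pos.qb hDX hqD hP L b [] h hz hn
        · exact hP _ (zl_ok hDX hqX hqD L b h hq hD ha).1 hz hn
      · rw [if_neg ha, LinearMap.zero_apply]
        exact WN.zero

/-- **Positivity of normal ribbons.** -/
theorem pos_all (n : ℕ) : ∀ X : Finset α, X.card = n → Pos X := by
  induction n with
  | zero =>
    intro X hX L hL z hz hn
    refine WN_of_words (rib L) ?_ hz hn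
    intro u hu huX
    rw [Finset.card_eq_zero] at hX
    have hu' : u = [] := by
      rw [hX, List.toFinset_eq_empty_iff] at huX
      exact huX
    subst hu'
    cases L with
    | nil =>
      rw [rib_nil]
      exact WN.wd _
    | cons b L =>
      rw [rib_nil_word _ b L rfl hL.all_pos]
      exact WN.zero
  | succ n ih =>
    intro X hX L hL z hz hn
    refine WN_of_words (rib L) ?_ hz hn
    intro u hu huX
    cases L with
    | nil =>
      rw [rib_nil]
      exact WN.wd _
    | cons b L =>
      match u, hu, huX with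
      | [], _, huX =>
        rw [List.toFinset_nil] at huX
        rw [← huX] at hX
        simp at hX
      | q :: u, hu, huX =>
        obtain ⟨hq, hu'⟩ := List.nodup_cons.1 hu
        have hqX0 : q ∉ u.toFinset := fun h => hq (List.mem_toFinset.1 h)
        have hXi : X = insert q u.toFinset := by
          rw [← huX, List.toFinset_cons]
        have hzu : wd u ∈ WS u.toFinset := wd_mem u hu' rfl
        rw [← cns_wd, rib_cns hqX0 _ (b :: L) rfl hL.nest hzu]
        refine WN.add ?_ (WN.sum _ _ fun D hD => ?_)
        · refine WN.cns ?_ q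
          refine ih u.toFinset ?_ (b :: L) (hL.mono ?_) hzu (WN.wd u)
          · rw [hXi, Finset.card_insert_of_notMem hqX0] at hX
            omega
          · rw [hXi]
            exact Finset.subset_insert _ _
        · refine WN.cns ?_ D
          have hDX : D ∈ X := by
            rw [hXi]
            exact Finset.mem_insert_of_mem hD
          have hqX : q ∈ X := by
            rw [hXi]
            exact Finset.mem_insert_self _ _
          have hqD : q ≠ D := fun h => hqX0 (h ▸ hD)
          have hP : Pos (X.erase D) := by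
            refine ih _ ?_
            rw [Finset.card_erase_of_mem hDX, hX]
            rfl
          refine Pos.kap hDX hqX hqD hP b L hL ?_ ?_
          · rw [hXi]
            exact swap_mem hqX0 hD hzu
          · rw [rl_wd]
            exact WN.wd _

/-- **Positivity of ribbons.** -/
theorem rib_pos {X : Finset α} {L : List (Bl α)} (h : WF X L) (hl : lpos L) {z : Wd α}
    (hz : z ∈ WS X) (hn : WN z) : WN (rib L z) :=
  (pos_all _ X rfl).wf h (Or.inl hl) hz hn

end H50R
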